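import Mathlib

/-!
# Automorphisms of the path graph of the complete graph

The path graph of the complete graph on `V` has the spanning paths as vertices, two of them being
adjacent if they share all but one of their edges. For `|V| ≥ 5` each of its automorphisms is
induced by exactly one permutation of `V`.
-/

set_option linter.unusedSectionVars false
set_option linter.unusedSimpArgs false

open Finset

namespace Pool.Agent.Results.MP_89fae5_co.PathGraphAut

section Part1

variable {V : Type*} [DecidableEq V]

/-- The edge set `{v₁v₂, v₂v₃, …}` of a finite sequence `v₁, v₂, …` of vertices. -/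
def edgesOf : List V → Finset (Sym2 V)
  | [] => ∅
  | [_] => ∅
  | a :: b :: l => insert s(a, b) (edgesOf (b :: l))

@[simp] theorem edgesOf_nil : edgesOf ([] : List V) = ∅ := rfl
@[simp] theorem edgesOf_single (a : V) : edgesOf [a] = ∅ := rfl
@[simp] theorem edgesOf_cons_cons (a b : V) (l : List V) :
    edgesOf (a :: b :: l) = insert s(a, b) (edgesOf (b :: l)) := rfl

theorem edgesOf_append (A B : List V) (hA : A ≠ []) (hB : B ≠ []) :
    edgesOf (A ++ B) = insert s(A.getLast hA, B.head hB) (edgesOf A ∪ edgesOf B) := by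
  induction A with
  | nil => exact absurd rfl hA
  | cons a A ih =>
    cases A with
    | nil =>
      cases B with
      | nil => exact absurd rfl hB
      | cons b B => simp
    | cons a' A =>
      have := ih (by simp)
      simp only [List.cons_append, edgesOf_cons_cons] at this ⊢
      rw [this]
      ext e
      simp only [List.getLast_cons_cons, mem_insert, mem_union]
      tauto

theorem edgesOf_reverse (l : List V) : edgesOf l.reverse = edgesOf l := by
  induction l with
  | nil => rfl
  | cons a l ih =>
    cases l with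
    | nil => rfl
    | cons b l =>
      rw [List.reverse_cons, edgesOf_append _ _ (by simp) (by simp), ih]
      simp [Sym2.eq_swap]

theorem mem_of_mem_edgesOf {l : List V} {a b : V} (h : s(a, b) ∈ edgesOf l) : a ∈ l ∧ b ∈ l := by
  induction l with
  | nil => simp at h
  | cons x l ih =>
    cases l with
    | nil => simp at h
    | cons y l =>
      simp only [edgesOf_cons_cons, mem_insert] at h
      rcases h with h | h
      · rcases Sym2.eq_iff.mp h with ⟨rfl, rfl⟩ | ⟨rfl, rfl⟩ <;> simp
      · have := ih h
        exact ⟨List.mem_cons_of_mem _ this.1, List.mem_cons_of_mem _ this.2⟩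

theorem card_edgesOf {l : List V} (h : l.Nodup) : (edgesOf l).card = l.length - 1 := by
  induction l with
  | nil => rfl
  | cons x l ih =>
    cases l with
    | nil => rfl
    | cons y l =>
      rw [List.nodup_cons] at h
      rw [edgesOf_cons_cons, card_insert_of_notMem, ih h.2]
      · simp
      · intro hm
        exact h.1 (mem_of_mem_edgesOf hm).1

theorem edgesOf_map {W : Type*} [DecidableEq W] (f : V → W) (l : List V) :
    edgesOf (l.map f) = (edgesOf l).image (Sym2.map f) := by
  induction l with
  | nil => rfl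
  | cons x l ih =>
    cases l with
    | nil => rfl
    | cons y l =>
      simp only [List.map_cons, edgesOf_cons_cons, image_insert, Sym2.map_mk] at ih ⊢
      rw [ih]

/-- a path has no loops -/
theorem no_loop {m : List V} (hm : m.Nodup) (a : V) : s(a, a) ∉ edgesOf m := by
  induction m with
  | nil => simp
  | cons x l ih =>
    cases l with
    | nil => simp
    | cons y l =>
      rw [List.nodup_cons] at hm
      simp only [edgesOf_cons_cons, mem_insert, not_or]
      refine ⟨?_, ih hm.2⟩
      intro h
      rcases Sym2.eq_iff.mp h with ⟨rfl, rfl⟩ | ⟨rfl, rfl⟩ <;> simp at hm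

/-- the number of edges of a path inside a nonempty vertex set `S` is less than `|S|` -/
theorem inside_lt {m : List V} (hm : m.Nodup) (S : Finset V) (hS : S.Nonempty) :
    (edgesOf m ∩ S.sym2).card < S.card := by
  induction m generalizing S with
  | nil => simpa using hS
  | cons x l ih =>
    cases l with
    | nil => simpa using hS
    | cons y l =>
      have hm' := List.nodup_cons.mp hm
      by_cases hx : x ∈ S
      · by_cases hS' : (S.erase x).Nonempty
        · have h1 := ih hm'.2 (S.erase x) hS'
          have h2 : edgesOf (x :: y :: l) ∩ S.sym2 ⊆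
              insert s(x, y) (edgesOf (y :: l) ∩ (S.erase x).sym2) := by
            intro e he
            rw [mem_inter, edgesOf_cons_cons, mem_insert] at he
            rw [mem_insert]
            rcases he with ⟨he | he, heS⟩
            · exact Or.inl he
            · right
              rw [mem_inter]
              refine ⟨he, ?_⟩
              induction e with
              | _ u v =>
                have := mem_of_mem_edgesOf he
                rw [Finset.mk_mem_sym2_iff] at heS ⊢
                refine ⟨mem_erase.mpr ⟨?_, heS.1⟩, mem_erase.mpr ⟨?_, heS.2⟩⟩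
                · rintro rfl; exact hm'.1 this.1
                · rintro rfl; exact hm'.1 this.2
          have h3 := card_le_card h2
          have h4 := card_insert_le s(x, y) (edgesOf (y :: l) ∩ (S.erase x).sym2)
          have h5 := card_erase_of_mem hx
          have h6 : 0 < S.card := card_pos.mpr hS
          omega
        · have hSx : S = {x} := by
            rw [not_nonempty_iff_eq_empty] at hS'
            apply Finset.Subset.antisymm
            · intro z hz
              by_contra hzx
              rw [mem_singleton] at hzx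
              have : z ∈ S.erase x := mem_erase.mpr ⟨hzx, hz⟩
              rw [hS'] at this
              simp at this
            · simpa using hx
          subst hSx
          have : edgesOf (x :: y :: l) ∩ ({x} : Finset V).sym2 = ∅ := by
            rw [eq_empty_iff_forall_notMem]
            intro e he
            induction e with
            | _ u v =>
              rw [mem_inter, Finset.mk_mem_sym2_iff, mem_singleton, mem_singleton] at he
              obtain ⟨he, rfl, rfl⟩ := he
              exact no_loop hm _ he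
          rw [this]; simp
      · have : edgesOf (x :: y :: l) ∩ S.sym2 = edgesOf (y :: l) ∩ S.sym2 := by
          ext e
          simp only [mem_inter, edgesOf_cons_cons, mem_insert]
          constructor
          · rintro ⟨rfl | h, h2⟩
            · rw [Finset.mk_mem_sym2_iff] at h2; exact absurd h2.1 hx
            · exact ⟨h, h2⟩
          · rintro ⟨h, h2⟩; exact ⟨Or.inr h, h2⟩
        rw [this]
        exact ih hm'.2 S hS

/-- a path contains no cycle -/
theorem closing {m A : List V} (hm : m.Nodup) (hA : A.Nodup) (hne : A ≠ [])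
    (hsub : edgesOf A ⊆ edgesOf m) (hmem : s(A.head hne, A.getLast hne) ∈ edgesOf m) :
    s(A.head hne, A.getLast hne) ∈ edgesOf A := by
  by_contra hcon
  have hS : (A.toFinset).Nonempty := by
    cases A with
    | nil => exact absurd rfl hne
    | cons a A => simp
  have h1 := inside_lt hm A.toFinset hS
  have h2 : insert s(A.head hne, A.getLast hne) (edgesOf A) ⊆ edgesOf m ∩ A.toFinset.sym2 := by
    intro e he
    rw [mem_insert] at he
    rw [mem_inter]
    rcases he with rfl | he
    · refine ⟨hmem, ?_⟩
      rw [Finset.mk_mem_sym2_iff]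
      simp
    · refine ⟨hsub he, ?_⟩
      induction e with
      | _ u v =>
        have := mem_of_mem_edgesOf he
        rw [Finset.mk_mem_sym2_iff]
        simpa using this
  have h3 := card_le_card h2
  rw [card_insert_of_notMem hcon, card_edgesOf hA] at h3
  rw [List.toFinset_card_of_nodup hA] at h1
  have h4 : 0 < A.length := List.length_pos_iff.mpr hne
  omega

theorem head_deg {y : V} {l : List V} (h : (y :: l).Nodup) {a b : V}
    (ha : s(y, a) ∈ edgesOf (y :: l)) (hb : s(y, b) ∈ edgesOf (y :: l)) : a = b := by
  cases l with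
  | nil => simp at ha
  | cons z l =>
    rw [List.nodup_cons] at h
    have key : ∀ c, s(y, c) ∈ edgesOf (y :: z :: l) → c = z := by
      intro c hc
      rw [edgesOf_cons_cons, mem_insert] at hc
      rcases hc with hc | hc
      · rcases Sym2.eq_iff.mp hc with ⟨_, h2⟩ | ⟨h1, h2⟩
        · exact h2
        · subst h1; exact h2
      · exact absurd (mem_of_mem_edgesOf hc).1 h.1
    rw [key a ha, key b hb]

/-- no vertex of a path has three neighbours -/
theorem deg_three {m : List V} (hm : m.Nodup) {v a b c : V} (ha : s(v, a) ∈ edgesOf m)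
    (hb : s(v, b) ∈ edgesOf m) (hc : s(v, c) ∈ edgesOf m) (hab : a ≠ b) (hac : a ≠ c)
    (hbc : b ≠ c) : False := by
  induction m with
  | nil => simp at ha
  | cons x l ih =>
    cases l with
    | nil => simp at ha
    | cons y l =>
      have hm' := List.nodup_cons.mp hm
      by_cases hvx : v = x
      · subst hvx
        exact hab (head_deg hm ha hb)
      · have key : ∀ d, s(v, d) ∈ edgesOf (x :: y :: l) → (v = y ∧ d = x) ∨ s(v, d) ∈ edgesOf (y :: l) := by
          intro d hd
          rw [edgesOf_cons_cons, mem_insert] at hd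
          rcases hd with hd | hd
          · rcases Sym2.eq_iff.mp hd with ⟨h1, _⟩ | ⟨h1, h2⟩
            · exact absurd h1 hvx
            · exact Or.inl ⟨h1, h2⟩
          · exact Or.inr hd
        rcases key a ha with ⟨h1, h2⟩ | ha' <;> rcases key b hb with ⟨h3, h4⟩ | hb' <;>
          rcases key c hc with ⟨h5, h6⟩ | hc'
        · exact hab (h2.trans h4.symm)
        · exact hab (h2.trans h4.symm)
        · exact hac (h2.trans h6.symm)
        · subst h1; exact hbc (head_deg hm'.2 hb' hc')
        · exact hbc (h4.trans h6.symm)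
        · subst h3; exact hac (head_deg hm'.2 ha' hc')
        · subst h5; exact hab (head_deg hm'.2 ha' hb')
        · exact ih hm'.2 ha' hb' hc'

/-- an inner vertex of a path has two neighbours -/
theorem inner {A : List V} (hA : A.Nodup) (hne : A ≠ []) {u : V} (hu : u ∈ A)
    (h1 : u ≠ A.head hne) (h2 : u ≠ A.getLast hne) :
    ∃ p q, p ≠ q ∧ s(u, p) ∈ edgesOf A ∧ s(u, q) ∈ edgesOf A := by
  obtain ⟨s, t, rfl⟩ := List.append_of_mem hu
  have hs : s ≠ [] := by
    rintro rfl; simp at h1
  have ht : t ≠ [] := by
    rintro rfl; simp at h2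
  obtain ⟨q, t, rfl⟩ := List.exists_cons_of_ne_nil ht
  refine ⟨s.getLast hs, q, ?_, ?_, ?_⟩
  · intro h
    have h3 : s.getLast hs ∈ s := List.getLast_mem hs
    rw [h] at h3
    rw [List.nodup_append] at hA
    exact hA.2.2 q h3 q (by simp) rfl
  · rw [edgesOf_append _ _ hs (by simp)]
    simp [Sym2.eq_swap]
  · rw [edgesOf_append _ _ hs (by simp)]
    simp

/-- splitting a path at an edge -/
theorem split_edge {l : List V} {e : Sym2 V} (he : e ∈ edgesOf l) :
    ∃ (A B : List V) (hA : A ≠ []) (hB : B ≠ []), l = A ++ B ∧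
      e = s(A.getLast hA, B.head hB) := by
  induction l with
  | nil => simp at he
  | cons x l ih =>
    cases l with
    | nil => simp at he
    | cons y l =>
      rw [edgesOf_cons_cons, mem_insert] at he
      rcases he with rfl | he
      · exact ⟨[x], y :: l, by simp, by simp, rfl, rfl⟩
      · obtain ⟨A, B, hA, hB, h1, h2⟩ := ih he
        refine ⟨x :: A, B, by simp, hB, by simp [h1], ?_⟩
        rw [h2, List.getLast_cons hA]

theorem edgesOf_inj_aux {a : V} {l m : List V} (hl : (a :: l).Nodup) (hm : (a :: m).Nodup)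
    (h : edgesOf (a :: l) = edgesOf (a :: m)) : l = m := by
  induction l generalizing a m with
  | nil =>
    cases m with
    | nil => rfl
    | cons b m =>
      have h2 : s(a, b) ∈ edgesOf (a :: b :: m) := by simp
      rw [← h] at h2
      simp at h2
  | cons b l ih =>
    cases m with
    | nil => simp at h
    | cons b' m =>
      have hb : s(a, b) ∈ edgesOf (a :: b' :: m) := by rw [← h]; simp
      have hb' : s(a, b') ∈ edgesOf (a :: b' :: m) := by simp
      have := head_deg hm hb hb'
      subst this
      have h1 := List.nodup_cons.mp hl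
      have h2 := List.nodup_cons.mp hm
      congr 1
      apply ih h1.2 h2.2
      have e1 : edgesOf (b :: l) = (edgesOf (a :: b :: l)).erase s(a, b) := by
        rw [edgesOf_cons_cons, erase_insert]
        intro h; exact h1.1 (mem_of_mem_edgesOf h).1
      have e2 : edgesOf (b :: m) = (edgesOf (a :: b :: m)).erase s(a, b) := by
        rw [edgesOf_cons_cons, erase_insert]
        intro h; exact h2.1 (mem_of_mem_edgesOf h).1
      rw [e1, e2, h]

/-- a spanning path determines its sequence of vertices up to reversal -/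
theorem edgesOf_inj {l m : List V} (hl : l.Nodup) (hm : m.Nodup) (hlm : ∀ v, v ∈ l ↔ v ∈ m)
    (h : edgesOf l = edgesOf m) : l = m ∨ l = m.reverse := by
  cases l with
  | nil =>
    cases m with
    | nil => simp
    | cons b m => exact absurd ((hlm b).mpr (by simp)) (by simp)
  | cons a l =>
    have ha : a ∈ m := (hlm a).mp (by simp)
    have hne : m ≠ [] := List.ne_nil_of_mem ha
    by_cases h1 : a = m.head hne
    · left
      obtain ⟨b, m, rfl⟩ := List.exists_cons_of_ne_nil hne
      simp only [List.head_cons] at h1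
      subst h1
      rw [edgesOf_inj_aux hl hm h]
    · by_cases h2 : a = m.getLast hne
      · right
        have hne' : m.reverse ≠ [] := by simpa using hne
        have h3 : a = m.reverse.head hne' := by rw [List.head_reverse]; exact h2
        have hmr : m.reverse.Nodup := List.nodup_reverse.mpr hm
        have h4 : edgesOf (a :: l) = edgesOf m.reverse := by rw [edgesOf_reverse]; exact h
        generalize hm' : m.reverse = m' at *
        obtain ⟨b, m', rfl⟩ := List.exists_cons_of_ne_nil hne'
        simp only [List.head_cons] at h3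
        subst h3
        rw [edgesOf_inj_aux hl hmr h4]
      · obtain ⟨p, q, hpq, hp, hq⟩ := inner hm hne ha h1 h2
        rw [← h] at hp hq
        exact absurd (head_deg hl hp hq) hpq

end Part1

section Part2

section
variable {V : Type*}

/-- A sequence of vertices in which every vertex occurs exactly once. -/
def Ham (l : List V) : Prop := l.Nodup ∧ ∀ v, v ∈ l

theorem Ham.perm {l m : List V} (h : Ham l) (hp : l.Perm m) : Ham m :=
  ⟨hp.nodup_iff.mp h.1, fun v => hp.mem_iff.mp (h.2 v)⟩

theorem Ham.reverse {l : List V} (h : Ham l) : Ham l.reverse :=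
  h.perm (List.reverse_perm l).symm

theorem Ham.rotate {l : List V} (h : Ham l) (k : ℕ) : Ham (l.rotate k) :=
  h.perm (List.rotate_perm l k).symm

theorem Ham.swap {A B : List V} (h : Ham (A ++ B)) : Ham (B ++ A) :=
  h.perm List.perm_append_comm

theorem Ham.revl {A B : List V} (h : Ham (A ++ B)) : Ham (A.reverse ++ B) :=
  h.perm (List.Perm.append_right B (List.reverse_perm A).symm)

theorem Ham.revr {A B : List V} (h : Ham (A ++ B)) : Ham (A ++ B.reverse) :=
  h.perm (List.Perm.append_left A (List.reverse_perm B).symm)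

theorem Ham.length [Fintype V] [DecidableEq V] {l : List V} (h : Ham l) :
    l.length = Fintype.card V := by
  rw [← List.toFinset_card_of_nodup h.1]
  have : l.toFinset = Finset.univ := by
    ext v; simp [h.2 v]
  rw [this]; rfl

theorem head_ne_last {A : List V} (hA : A.Nodup) (h2 : 2 ≤ A.length) (hne : A ≠ []) :
    A.head hne ≠ A.getLast hne := by
  match A, hA, h2, hne with
  | a :: b :: A, hA, h2, hne =>
    intro h
    rw [List.nodup_cons] at hA
    apply hA.1
    simp only [List.head_cons, List.getLast_cons_cons] at h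
    rw [h]
    exact List.getLast_mem _

end

variable {V : Type*} [DecidableEq V]

theorem cross {A B : List V} (h : (A ++ B).Nodup) {a b : V} (ha : a ∈ A) (hb : b ∈ B) :
    s(a, b) ∉ edgesOf A ∪ edgesOf B := by
  rw [List.nodup_append] at h
  intro hm
  rw [mem_union] at hm
  rcases hm with hm | hm
  · exact h.2.2 b (mem_of_mem_edgesOf hm).2 b hb rfl
  · exact h.2.2 a ha a (mem_of_mem_edgesOf hm).1 rfl

theorem e_AB {A B : List V} (hA : A ≠ []) (hB : B ≠ []) :
    edgesOf (A ++ B) = insert s(A.getLast hA, B.head hB) (edgesOf A ∪ edgesOf B) :=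
  edgesOf_append A B hA hB

theorem e_BA {A B : List V} (hA : A ≠ []) (hB : B ≠ []) :
    edgesOf (B ++ A) = insert s(B.getLast hB, A.head hA) (edgesOf A ∪ edgesOf B) := by
  rw [edgesOf_append B A hB hA, union_comm]

theorem e_ArB {A B : List V} (hA : A ≠ []) (hB : B ≠ []) :
    edgesOf (A.reverse ++ B) = insert s(A.head hA, B.head hB) (edgesOf A ∪ edgesOf B) := by
  rw [edgesOf_append A.reverse B (by simpa using hA) hB, edgesOf_reverse, List.getLast_reverse]

theorem e_ABr {A B : List V} (hA : A ≠ []) (hB : B ≠ []) :
    edgesOf (A ++ B.reverse) = insert s(A.getLast hA, B.getLast hB) (edgesOf A ∪ edgesOf B) := by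
  rw [edgesOf_append A B.reverse hA (by simpa using hB), edgesOf_reverse, List.head_reverse]

/-- which edges can join two vertex-disjoint paths covering everything to a spanning path -/
theorem star {A B m : List V} (hA : A ≠ []) (hB : B ≠ []) (h : Ham (A ++ B)) (hm : m.Nodup)
    {x : Sym2 V} (hx : x ∉ edgesOf A ∪ edgesOf B)
    (hmx : edgesOf m = insert x (edgesOf A ∪ edgesOf B)) :
    x = s(A.getLast hA, B.head hB) ∨ x = s(A.head hA, B.head hB) ∨
      x = s(A.getLast hA, B.getLast hB) ∨ x = s(B.getLast hB, A.head hA) := by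
  have hnd := List.nodup_append.mp h.1
  have hAm : edgesOf A ⊆ edgesOf m := by
    rw [hmx]; intro e he; simp [he]
  have hBm : edgesOf B ⊆ edgesOf m := by
    rw [hmx]; intro e he; simp [he]
  have hxm : x ∈ edgesOf m := by rw [hmx]; simp
  have ends : ∀ u w, s(u, w) = x → (u = A.head hA ∨ u = A.getLast hA) ∨
      (u = B.head hB ∨ u = B.getLast hB) := by
    intro u w hu
    by_contra hcon
    push Not at hcon
    have hu' := h.2 u
    rw [List.mem_append] at hu'
    rcases hu' with hu' | hu'
    · obtain ⟨p, q, hpq, hp, hq⟩ := inner hnd.1 hA hu' hcon.1.1 hcon.1.2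
      refine deg_three hm (v := u) (a := p) (b := q) (c := w) (hAm hp) (hAm hq) ?_ hpq ?_ ?_
      · rw [hu]; exact hxm
      · rintro rfl; apply hx; rw [← hu]; simp [hp]
      · rintro rfl; apply hx; rw [← hu]; simp [hq]
    · obtain ⟨p, q, hpq, hp, hq⟩ := inner hnd.2.1 hB hu' hcon.2.1 hcon.2.2
      refine deg_three hm (v := u) (a := p) (b := q) (c := w) (hBm hp) (hBm hq) ?_ hpq ?_ ?_
      · rw [hu]; exact hxm
      · rintro rfl; apply hx; rw [← hu]; simp [hp]
      · rintro rfl; apply hx; rw [← hu]; simp [hq]
  have cA : x ≠ s(A.head hA, A.getLast hA) := by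
    intro hc
    have h1 := closing hm hnd.1 hA hAm (by rw [← hc]; exact hxm)
    apply hx; rw [hc]; simp [h1]
  have cB : x ≠ s(B.head hB, B.getLast hB) := by
    intro hc
    have h1 := closing hm hnd.2.1 hB hBm (by rw [← hc]; exact hxm)
    apply hx; rw [hc]; simp [h1]
  have cA' : x ≠ s(A.getLast hA, A.head hA) := by rw [Sym2.eq_swap]; exact cA
  have cB' : x ≠ s(B.getLast hB, B.head hB) := by rw [Sym2.eq_swap]; exact cB
  have cl : ∀ u, x ≠ s(u, u) := by
    intro u hc; rw [hc] at hxm; exact no_loop hm u hxm
  induction x with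
  | _ u w =>
    have h1 := ends u w rfl
    have h2 := ends w u Sym2.eq_swap
    rcases h1 with (h1 | h1) | (h1 | h1) <;> rcases h2 with (h2 | h2) | (h2 | h2) <;>
      subst h1 <;> subst h2
    · exact absurd rfl (cl _)
    · exact absurd rfl cA
    · right; left; rfl
    · right; right; right; exact Sym2.eq_swap
    · exact absurd rfl cA'
    · exact absurd rfl (cl _)
    · left; rfl
    · right; right; left; rfl
    · right; left; exact Sym2.eq_swap
    · left; exact Sym2.eq_swap
    · exact absurd rfl (cl _)
    · exact absurd rfl cB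
    · right; right; right; rfl
    · right; right; left; exact Sym2.eq_swap
    · exact absurd rfl cB'
    · exact absurd rfl (cl _)

variable [Fintype V]

variable (V) in
/-- A spanning path of the complete graph on `V`, identified with its set of edges. -/
def SpanningPath : Type _ :=
  {P : Finset (Sym2 V) // ∃ l : List V, (l.Nodup ∧ ∀ v, v ∈ l) ∧ P = edgesOf l}

variable (V) in
/-- The path graph of the complete graph on `V`: two spanning paths are adjacent if they share
exactly `|V| - 2` edges. -/
def pathGraph : SimpleGraph (SpanningPath V) where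
  Adj P Q := P ≠ Q ∧ (P.1 ∩ Q.1).card + 2 = Fintype.card V
  symm := ⟨fun P Q h => ⟨h.1.symm, by rw [inter_comm]; exact h.2⟩⟩
  loopless := ⟨fun P h => h.1 rfl⟩

/-- The spanning path with vertex sequence `l`. -/
def pathOf (l : List V) (h : Ham l) : SpanningPath V := ⟨edgesOf l, l, h, rfl⟩

theorem exists_pathOf (P : SpanningPath V) : ∃ l, ∃ h : Ham l, P = pathOf l h := by
  obtain ⟨P, l, h, rfl⟩ := P
  exact ⟨l, h, rfl⟩

theorem pathOf_congr {l m : List V} (hl : Ham l) (hm : Ham m) (h : l = m) :
    pathOf l hl = pathOf m hm := by subst h; rfl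

theorem pathOf_eq_iff {l m : List V} (hl : Ham l) (hm : Ham m) :
    pathOf l hl = pathOf m hm ↔ edgesOf l = edgesOf m := by
  constructor
  · intro h; exact congrArg Subtype.val h
  · intro h; exact Subtype.ext h

theorem card_path (P : SpanningPath V) : P.1.card = Fintype.card V - 1 := by
  obtain ⟨l, h, rfl⟩ := exists_pathOf P
  change (edgesOf l).card = _
  rw [card_edgesOf h.1, h.length]

theorem path_ext_of_subset {P Q : SpanningPath V} (h : P.1 ⊆ Q.1) : P = Q := by
  apply Subtype.ext
  apply eq_of_subset_of_card_le h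
  rw [card_path, card_path]

theorem adj_out {P Q : SpanningPath V} (h : (pathGraph V).Adj P Q) :
    ∃ p ∈ P.1, p ∉ Q.1 ∧ ∀ e ∈ P.1, e ≠ p → e ∈ Q.1 := by
  have h1 := h.2
  have h2 := card_path P
  have h3 := Finset.card_sdiff_add_card_inter P.1 Q.1
  have h4 : (P.1 \ Q.1).card = 1 := by omega
  obtain ⟨p, hp⟩ := card_eq_one.mp h4
  have hp' : p ∈ P.1 \ Q.1 := by rw [hp]; simp
  rw [mem_sdiff] at hp'
  refine ⟨p, hp'.1, hp'.2, ?_⟩
  intro e he hep
  by_contra hne
  have : e ∈ P.1 \ Q.1 := mem_sdiff.mpr ⟨he, hne⟩
  rw [hp, mem_singleton] at this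
  exact hep this

theorem adj_of_insert {P Q : SpanningPath V} (hV : 2 ≤ Fintype.card V) {F : Finset (Sym2 V)}
    {x y : Sym2 V} (hxy : x ≠ y) (hx : x ∉ F) (hy : y ∉ F) (hP : P.1 = insert x F)
    (hQ : Q.1 = insert y F) : (pathGraph V).Adj P Q := by
  have h2 := card_path P
  rw [hP, card_insert_of_notMem hx] at h2
  constructor
  · rintro rfl
    have : x ∈ insert y F := by rw [← hQ, hP]; simp
    rw [mem_insert] at this
    rcases this with h | h
    · exact hxy h
    · exact hx h
  · have : P.1 ∩ Q.1 = F := by
      rw [hP, hQ]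
      ext e
      simp only [mem_inter, mem_insert]
      constructor
      · rintro ⟨rfl | h, rfl | h'⟩
        · exact absurd rfl hxy
        · exact absurd h' hx
        · exact h
        · exact h
      · intro h; exact ⟨Or.inr h, Or.inr h⟩
    rw [this]; omega

/-- common neighbours of two adjacent spanning paths -/
theorem common {P Q X : SpanningPath V} {F : Finset (Sym2 V)} {f g : Sym2 V}
    (hfg : f ≠ g) (hf : f ∉ F) (hg : g ∉ F) (hP : P.1 = insert f F) (hQ : Q.1 = insert g F)
    (h1 : (pathGraph V).Adj P X) (h2 : (pathGraph V).Adj Q X) :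
    (∃ x, x ∉ F ∧ x ≠ f ∧ x ≠ g ∧ X.1 = insert x F) ∨
      (∃ r ∈ F, r ∉ X.1 ∧ X.1 = insert f (insert g (F.erase r))) := by
  obtain ⟨p, hp, hpX, hp'⟩ := adj_out h1
  obtain ⟨q, hq, hqX, hq'⟩ := adj_out h2
  have cP := card_path P
  have cX := card_path X
  rw [hP, card_insert_of_notMem hf] at cP
  rw [hP, mem_insert] at hp
  rw [hQ, mem_insert] at hq
  have hcase : (p ∈ F ∧ q ∈ F) ∨ (F ⊆ X.1) := by
    rcases hp with rfl | hp
    · right
      intro e he
      exact hp' e (by rw [hP]; simp [he]) (by rintro rfl; exact hf he)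
    · rcases hq with rfl | hq
      · right
        intro e he
        exact hq' e (by rw [hQ]; simp [he]) (by rintro rfl; exact hg he)
      · exact Or.inl ⟨hp, hq⟩
  rcases hcase with ⟨hp, hq⟩ | hFX
  · right
    have hpq : q = p := by
      by_contra hne
      exact hqX (hp' q (by rw [hP]; simp [hq]) hne)
    subst hpq
    refine ⟨q, hp, hpX, ?_⟩
    have hfX : f ∈ X.1 := hp' f (by rw [hP]; simp) (by rintro rfl; exact hf hp)
    have hgX : g ∈ X.1 := hq' g (by rw [hQ]; simp) (by rintro rfl; exact hg hq)
    symm
    apply eq_of_subset_of_card_le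
    · intro e he
      simp only [mem_insert, mem_erase] at he
      rcases he with rfl | rfl | ⟨h3, h4⟩
      · exact hfX
      · exact hgX
      · exact hp' e (by rw [hP]; simp [h4]) h3
    · rw [card_insert_of_notMem, card_insert_of_notMem, card_erase_of_mem hp]
      · have : 0 < F.card := card_pos.mpr ⟨_, hp⟩
        omega
      · simp [hg]
      · simp [hfg, hf]
  · left
    have h3 : (X.1 \ F).card = 1 := by
      rw [card_sdiff_of_subset hFX]; omega
    obtain ⟨x, hx⟩ := card_eq_one.mp h3
    have hx' : x ∈ X.1 \ F := by rw [hx]; simp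
    rw [mem_sdiff] at hx'
    have hX : X.1 = insert x F := by
      ext e
      rw [mem_insert]
      constructor
      · intro he
        by_cases heF : e ∈ F
        · exact Or.inr heF
        · left
          have : e ∈ X.1 \ F := mem_sdiff.mpr ⟨he, heF⟩
          rw [hx, mem_singleton] at this
          exact this
      · rintro (rfl | he)
        · exact hx'.1
        · exact hFX he
    refine ⟨x, hx'.2, ?_, ?_, hX⟩
    · rintro rfl
      exact h1.1 (Subtype.ext (by rw [hP, hX]))
    · rintro rfl
      exact h2.1 (Subtype.ext (by rw [hQ, hX]))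

end Part2

section Part3

variable {V : Type*} [DecidableEq V] [Fintype V]

theorem exists_insert {X F : Finset (Sym2 V)} (hFX : F ⊆ X) (hc : X.card = F.card + 1) :
    ∃ x, x ∉ F ∧ X = insert x F := by
  have h3 : (X \ F).card = 1 := by
    rw [card_sdiff_of_subset hFX]; omega
  obtain ⟨x, hx⟩ := card_eq_one.mp h3
  have hx' : x ∈ X \ F := by rw [hx]; simp
  rw [mem_sdiff] at hx'
  refine ⟨x, hx'.2, ?_⟩
  ext e
  rw [mem_insert]
  constructor
  · intro he
    by_cases heF : e ∈ F
    · exact Or.inr heF
    · left
      have : e ∈ X \ F := mem_sdiff.mpr ⟨he, heF⟩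
      rw [hx, mem_singleton] at this
      exact this
  · rintro (rfl | he)
    · exact hx'.1
    · exact hFX he

theorem len_pos {A B : List V} (h : Ham (A ++ B)) (hA : A ≠ []) (hB : B ≠ []) :
    2 ≤ Fintype.card V := by
  rw [← h.length, List.length_append]
  have := List.length_pos_iff.mpr hA
  have := List.length_pos_iff.mpr hB
  omega

theorem f1_notin {A B : List V} (h : Ham (A ++ B)) (hA : A ≠ []) (hB : B ≠ []) :
    s(A.getLast hA, B.head hB) ∉ edgesOf A ∪ edgesOf B :=
  cross h.1 (List.getLast_mem hA) (List.head_mem hB)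
theorem f2_notin {A B : List V} (h : Ham (A ++ B)) (hA : A ≠ []) (hB : B ≠ []) :
    s(A.head hA, B.head hB) ∉ edgesOf A ∪ edgesOf B :=
  cross h.1 (List.head_mem hA) (List.head_mem hB)
theorem f3_notin {A B : List V} (h : Ham (A ++ B)) (hA : A ≠ []) (hB : B ≠ []) :
    s(A.getLast hA, B.getLast hB) ∉ edgesOf A ∪ edgesOf B :=
  cross h.1 (List.getLast_mem hA) (List.getLast_mem hB)
theorem f4_notin {A B : List V} (h : Ham (A ++ B)) (hA : A ≠ []) (hB : B ≠ []) :
    s(B.getLast hB, A.head hA) ∉ edgesOf A ∪ edgesOf B := by
  rw [Sym2.eq_swap]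
  exact cross h.1 (List.head_mem hA) (List.getLast_mem hB)

theorem sep {A B : List V} (h : Ham (A ++ B)) {a b : V} (ha : a ∈ A) (hb : b ∈ B) : a ≠ b :=
  (List.nodup_append.mp h.1).2.2 a ha b hb

/-- cutting a path and joining the other way round -/
theorem rot_adj {A B : List V} (h : Ham (A ++ B)) (hA : A ≠ []) (hB : B ≠ [])
    (hV : 3 ≤ Fintype.card V) : (pathGraph V).Adj (pathOf (A ++ B) h) (pathOf (B ++ A) h.swap) := by
  refine adj_of_insert (by omega) ?_ (f1_notin h hA hB) (f4_notin h hA hB)
    (e_AB hA hB) (e_BA hA hB)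
  intro he
  rcases Sym2.eq_iff.mp he with ⟨h1, h2⟩ | ⟨h1, h2⟩
  · exact sep h (List.getLast_mem hA) (List.getLast_mem hB) h1
  · have hl := h.length
    rw [List.length_append] at hl
    have hnd := List.nodup_append.mp h.1
    by_cases hA2 : 2 ≤ A.length
    · exact head_ne_last hnd.1 hA2 hA h1.symm
    · by_cases hB2 : 2 ≤ B.length
      · exact head_ne_last hnd.2.1 hB2 hB h2
      · omega

theorem flip_adj {A B : List V} (h : Ham (A ++ B)) (hA : 2 ≤ A.length) (hB : B ≠ []) :
    (pathGraph V).Adj (pathOf (A ++ B) h) (pathOf (A.reverse ++ B) h.revl) := by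
  have hA' : A ≠ [] := by rintro rfl; simp at hA
  refine adj_of_insert (len_pos h hA' hB) ?_ (f1_notin h hA' hB) (f2_notin h hA' hB)
    (e_AB hA' hB) (e_ArB hA' hB)
  intro he
  have hnd := List.nodup_append.mp h.1
  rcases Sym2.eq_iff.mp he with ⟨h1, h2⟩ | ⟨h1, h2⟩
  · exact head_ne_last hnd.1 hA hA' h1.symm
  · exact sep h (List.head_mem hA') (List.head_mem hB) h2.symm

theorem flip_adj' {A B : List V} (h : Ham (A ++ B)) (hA : A ≠ []) (hB : 2 ≤ B.length) :
    (pathGraph V).Adj (pathOf (B ++ A) h.swap) (pathOf (A.reverse ++ B) h.revl) := by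
  have hB' : B ≠ [] := by rintro rfl; simp at hB
  refine adj_of_insert (len_pos h hA hB') ?_ (f4_notin h hA hB') (f2_notin h hA hB')
    (e_BA hA hB') (e_ArB hA hB')
  intro he
  have hnd := List.nodup_append.mp h.1
  rcases Sym2.eq_iff.mp he with ⟨h1, h2⟩ | ⟨h1, h2⟩
  · exact sep h (List.head_mem hA) (List.getLast_mem hB') h1.symm
  · exact head_ne_last hnd.2.1 hB hB' h1.symm

theorem rotate_adj {l : List V} (hl : Ham l) (hV : 3 ≤ Fintype.card V) {i j : ℕ} (hij : i < j)
    (hj : j < Fintype.card V) :
    (pathGraph V).Adj (pathOf (l.rotate i) (hl.rotate i)) (pathOf (l.rotate j) (hl.rotate j)) := by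
  have hlen := (hl.rotate i).length
  have e1 : l.rotate j = (l.rotate i).rotate (j - i) := by
    rw [List.rotate_rotate]; congr 1; omega
  have e2 : l.rotate i = (l.rotate i).take (j - i) ++ (l.rotate i).drop (j - i) :=
    (List.take_append_drop _ _).symm
  have e3 : l.rotate j = (l.rotate i).drop (j - i) ++ (l.rotate i).take (j - i) := by
    rw [e1]; exact List.rotate_eq_drop_append_take (by omega)
  have hH : Ham ((l.rotate i).take (j - i) ++ (l.rotate i).drop (j - i)) := by
    rw [← e2]; exact hl.rotate i
  have h1 := rot_adj hH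
    (by
      intro h0
      have := congrArg List.length h0
      simp only [List.length_take, List.length_nil] at this; omega)
    (by
      intro h0
      have := congrArg List.length h0
      simp only [List.length_drop, List.length_nil] at this; omega) hV
  rw [pathOf_congr (hl.rotate i) hH e2, pathOf_congr (hl.rotate j) hH.swap e3]
  exact h1

theorem rotate_adj' {l : List V} (hl : Ham l) (hV : 3 ≤ Fintype.card V) {i j : ℕ} (hij : i ≠ j)
    (hi : i < Fintype.card V) (hj : j < Fintype.card V) :
    (pathGraph V).Adj (pathOf (l.rotate i) (hl.rotate i)) (pathOf (l.rotate j) (hl.rotate j)) := by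
  rcases lt_or_gt_of_ne hij with h | h
  · exact rotate_adj hl hV h hj
  · exact (rotate_adj hl hV h hi).symm

/-- two adjacent spanning paths with at least three common neighbours -/
def Same (P Q : SpanningPath V) : Prop :=
  (pathGraph V).Adj P Q ∧ ∃ X Y Z : SpanningPath V, X ≠ Y ∧ X ≠ Z ∧ Y ≠ Z ∧
    ((pathGraph V).Adj P X ∧ (pathGraph V).Adj Q X) ∧
    ((pathGraph V).Adj P Y ∧ (pathGraph V).Adj Q Y) ∧
    ((pathGraph V).Adj P Z ∧ (pathGraph V).Adj Q Z)

theorem Same.symm {P Q : SpanningPath V} (h : Same P Q) : Same Q P := by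
  obtain ⟨h1, X, Y, Z, h2, h3, h4, h5, h6, h7⟩ := h
  exact ⟨h1.symm, X, Y, Z, h2, h3, h4, h5.symm, h6.symm, h7.symm⟩

theorem Same.map {P Q : SpanningPath V} (φ : pathGraph V ≃g pathGraph V) (h : Same P Q) :
    Same (φ P) (φ Q) := by
  obtain ⟨h1, X, Y, Z, h2, h3, h4, h5, h6, h7⟩ := h
  refine ⟨φ.map_rel_iff.mpr h1, φ X, φ Y, φ Z, φ.injective.ne h2, φ.injective.ne h3,
    φ.injective.ne h4, ⟨φ.map_rel_iff.mpr h5.1, φ.map_rel_iff.mpr h5.2⟩,
    ⟨φ.map_rel_iff.mpr h6.1, φ.map_rel_iff.mpr h6.2⟩,
    ⟨φ.map_rel_iff.mpr h7.1, φ.map_rel_iff.mpr h7.2⟩⟩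

theorem same_of_rot {A B : List V} (h : Ham (A ++ B)) (hA : A ≠ []) (hB : B ≠ [])
    (hV : 5 ≤ Fintype.card V) : Same (pathOf (A ++ B) h) (pathOf (B ++ A) h.swap) := by
  refine ⟨rot_adj h hA hB (by omega), ?_⟩
  have hlen := h.length
  rw [List.length_append] at hlen
  have hA' := List.length_pos_iff.mpr hA
  have hB' := List.length_pos_iff.mpr hB
  have hcard : 2 < (((range (Fintype.card V)).erase 0).erase A.length).card := by
    rw [card_erase_of_mem, card_erase_of_mem, card_range]
    · omega
    · rw [mem_range]; omega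
    · rw [mem_erase, mem_range]; omega
  obtain ⟨a, ha, b, hb, c, hc, hab, hac, hbc⟩ := Finset.two_lt_card.mp hcard
  simp only [mem_erase, mem_range] at ha hb hc
  have e0 : pathOf (A ++ B) h = pathOf ((A ++ B).rotate 0) (h.rotate 0) :=
    pathOf_congr _ _ (by simp)
  have e1 : pathOf (B ++ A) h.swap = pathOf ((A ++ B).rotate A.length) (h.rotate A.length) :=
    pathOf_congr _ _ (by rw [List.rotate_append_length_eq])
  rw [e0, e1]
  refine ⟨pathOf ((A ++ B).rotate a) (h.rotate a), pathOf ((A ++ B).rotate b) (h.rotate b),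
    pathOf ((A ++ B).rotate c) (h.rotate c), ?_, ?_, ?_, ⟨?_, ?_⟩, ⟨?_, ?_⟩, ⟨?_, ?_⟩⟩
  · exact (rotate_adj' h (by omega) hab ha.2.2 hb.2.2).ne
  · exact (rotate_adj' h (by omega) hac ha.2.2 hc.2.2).ne
  · exact (rotate_adj' h (by omega) hbc hb.2.2 hc.2.2).ne
  · exact rotate_adj' h (by omega) (by omega) (by omega) (by omega)
  · exact rotate_adj' h (by omega) (by omega) (by omega) (by omega)
  · exact rotate_adj' h (by omega) (by omega) (by omega) (by omega)
  · exact rotate_adj' h (by omega) (by omega) (by omega) (by omega)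
  · exact rotate_adj' h (by omega) (by omega) (by omega) (by omega)
  · exact rotate_adj' h (by omega) (by omega) (by omega) (by omega)

/-- Common neighbours in the case of different closures. -/
theorem flip_common {A B : List V} (h : Ham (A ++ B)) (hA : 2 ≤ A.length) (hB : 2 ≤ B.length)
    {X : SpanningPath V} (h1 : (pathGraph V).Adj (pathOf (A ++ B) h) X)
    (h2 : (pathGraph V).Adj (pathOf (A.reverse ++ B) h.revl) X) :
    X = pathOf (B ++ A) h.swap ∨ X = pathOf (A ++ B.reverse) h.revr := by
  have hA' : A ≠ [] := by rintro rfl; simp at hA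
  have hB' : B ≠ [] := by rintro rfl; simp at hB
  have hnd := List.nodup_append.mp h.1
  have hfg : s(A.getLast hA', B.head hB') ≠ s(A.head hA', B.head hB') := by
    intro he
    rcases Sym2.eq_iff.mp he with ⟨h1, h2⟩ | ⟨h1, h2⟩
    · exact head_ne_last hnd.1 hA hA' h1.symm
    · exact sep h (List.head_mem hA') (List.head_mem hB') h2.symm
  rcases common hfg (f1_notin h hA' hB') (f2_notin h hA' hB') (e_AB hA' hB') (e_ArB hA' hB') h1 h2
    with ⟨x, hx, hxf, hxg, hX⟩ | ⟨r, hr, hrX, hX⟩
  · obtain ⟨m, hm, rfl⟩ := exists_pathOf X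
    rcases star hA' hB' h hm.1 hx hX with h3 | h3 | h3 | h3
    · exact absurd h3 hxf
    · exact absurd h3 hxg
    · right
      rw [pathOf_eq_iff, e_ABr hA' hB', ← h3]; exact hX
    · left
      rw [pathOf_eq_iff, e_BA hA' hB', ← h3]; exact hX
  · exfalso
    obtain ⟨m, hm, rfl⟩ := exists_pathOf X
    change edgesOf m = _ at hX
    change r ∉ edgesOf m at hrX
    match B, h, hB, hB', hnd, hr, hX with
    | b :: b' :: B, h, hB, hB', hnd, hr, hX =>
      simp only [List.head_cons] at hX hfg
      have hbb : s(b, b') ∈ edgesOf (b :: b' :: B) := by simp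
      have hr' : r = s(b, b') := by
        by_contra hne
        have hin : s(b, b') ∈ edgesOf m := by
          rw [hX]; simp only [mem_insert, mem_erase, mem_union]
          exact Or.inr (Or.inr ⟨fun hh => hne hh.symm, Or.inr hbb⟩)
        have hg1 : s(b, A.getLast hA') ∈ edgesOf m := by
          rw [hX, Sym2.eq_swap]; simp
        have hg2 : s(b, A.head hA') ∈ edgesOf m := by
          rw [hX, Sym2.eq_swap]; simp
        refine deg_three hm.1 hin hg1 hg2 ?_ ?_ ?_
        · exact (sep h (List.getLast_mem hA') (by simp)).symm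
        · exact (sep h (List.head_mem hA') (by simp)).symm
        · exact (head_ne_last hnd.1 hA hA').symm
      have hAm : edgesOf A ⊆ edgesOf m := by
        intro e he
        rw [hX]; simp only [mem_insert, mem_erase, mem_union]
        right; right
        refine ⟨?_, Or.inl he⟩
        rintro rfl
        rw [hr'] at he
        exact sep h (mem_of_mem_edgesOf he).1 (by simp : b ∈ b :: b' :: B) rfl
      have hL : edgesOf (A ++ [b]) = insert s(A.getLast hA', b) (edgesOf A) := by
        rw [edgesOf_append A [b] hA' (by simp)]; simp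
      have hLn : (A ++ [b]).Nodup := by
        rw [List.nodup_append]
        refine ⟨hnd.1, by simp, ?_⟩
        intro x hx y hy
        simp only [List.mem_singleton] at hy
        subst hy
        exact sep h hx (by simp)
      have hLne : A ++ [b] ≠ [] := by simp
      have hLm : edgesOf (A ++ [b]) ⊆ edgesOf m := by
        rw [hL]
        intro e he
        rw [mem_insert] at he
        rcases he with rfl | he
        · rw [hX]; simp
        · exact hAm he
      have h5 := closing hm.1 hLn hLne hLm (by
        rw [hX]; simp [List.head_append_of_ne_nil hA'])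
      rw [hL, List.head_append_of_ne_nil hA', mem_insert] at h5
      simp only [List.getLast_append_singleton] at h5
      rcases h5 with h5 | h5
      · exact hfg h5.symm
      · exact sep h (mem_of_mem_edgesOf h5).2 (by simp : b ∈ b :: b' :: B) rfl

theorem not_same_flip {A B : List V} (h : Ham (A ++ B)) (hA : 2 ≤ A.length) (hB : 2 ≤ B.length) :
    ¬ Same (pathOf (A ++ B) h) (pathOf (A.reverse ++ B) h.revl) := by
  rintro ⟨_, X, Y, Z, hXY, hXZ, hYZ, ⟨h1, h2⟩, ⟨h3, h4⟩, ⟨h5, h6⟩⟩
  rcases flip_common h hA hB h1 h2 with hX | hX <;> rcases flip_common h hA hB h3 h4 with hY | hY <;>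
    rcases flip_common h hA hB h5 h6 with hZ | hZ
  · exact hXY (hX.trans hY.symm)
  · exact hXY (hX.trans hY.symm)
  · exact hXZ (hX.trans hZ.symm)
  · exact hYZ (hY.trans hZ.symm)
  · exact hYZ (hY.trans hZ.symm)
  · exact hXZ (hX.trans hZ.symm)
  · exact hXY (hX.trans hY.symm)
  · exact hXY (hX.trans hY.symm)

theorem classify {P Q : SpanningPath V} (hadj : (pathGraph V).Adj P Q) :
    (∃ (A B : List V) (h : Ham (A ++ B)), A ≠ [] ∧ B ≠ [] ∧ P = pathOf (A ++ B) h ∧
      Q = pathOf (B ++ A) h.swap) ∨
    (∃ (A B : List V) (h : Ham (A ++ B)), 2 ≤ A.length ∧ 2 ≤ B.length ∧ P = pathOf (A ++ B) h ∧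
      Q = pathOf (A.reverse ++ B) h.revl) := by
  obtain ⟨l, hl, rfl⟩ := exists_pathOf P
  obtain ⟨m, hm, rfl⟩ := exists_pathOf Q
  obtain ⟨p, hp, hpm, hpr⟩ := adj_out hadj
  obtain ⟨A, B, hA, hB, rfl, hpe⟩ := split_edge hp
  have hF : edgesOf A ∪ edgesOf B ⊆ edgesOf m := by
    intro e he
    apply hpr
    · change e ∈ edgesOf (A ++ B)
      rw [e_AB hA hB, mem_insert]; exact Or.inr he
    · rintro rfl; rw [hpe] at he; exact f1_notin hl hA hB he
  have hc : (edgesOf m).card = (edgesOf A ∪ edgesOf B).card + 1 := by
    have c1 := card_path (pathOf m hm)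
    have c2 := card_path (pathOf _ hl)
    change (edgesOf m).card = _ at c1
    change (edgesOf (A ++ B)).card = _ at c2
    rw [e_AB hA hB, card_insert_of_notMem (f1_notin hl hA hB)] at c2
    omega
  obtain ⟨x, hx, hmx⟩ := exists_insert hF hc
  have hA' := List.length_pos_iff.mpr hA
  have hB' := List.length_pos_iff.mpr hB
  rcases star hA hB hl hm.1 hx hmx with h3 | h3 | h3 | h3
  · exfalso
    apply hadj.1
    rw [pathOf_eq_iff, e_AB hA hB, hmx, h3]
  · -- x = s(hA, hB)
    by_cases hA2 : 2 ≤ A.length
    · by_cases hB2 : 2 ≤ B.length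
      · right
        refine ⟨A, B, hl, hA2, hB2, rfl, ?_⟩
        rw [pathOf_eq_iff, e_ArB hA hB, hmx, h3]
      · left
        refine ⟨A, B, hl, hA, hB, rfl, ?_⟩
        rw [pathOf_eq_iff, e_BA hA hB, hmx, h3]
        obtain ⟨b, rfl⟩ := List.length_eq_one_iff.mp (show B.length = 1 by omega)
        simp [Sym2.eq_swap]
    · exfalso
      obtain ⟨a, rfl⟩ := List.length_eq_one_iff.mp (show A.length = 1 by omega)
      apply hadj.1
      rw [pathOf_eq_iff, e_AB hA hB, hmx, h3]
      simp
  · -- x = s(lA, lB)
    by_cases hB2 : 2 ≤ B.length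
    · by_cases hA2 : 2 ≤ A.length
      · right
        have hr : Ham (B.reverse ++ A.reverse) := by
          rw [← List.reverse_append]; exact hl.reverse
        refine ⟨B.reverse, A.reverse, hr, by simpa using hB2, by simpa using hA2, ?_, ?_⟩
        · rw [pathOf_eq_iff, ← List.reverse_append, edgesOf_reverse]
        · rw [pathOf_eq_iff, hmx, h3, List.reverse_reverse, ← e_ABr hA hB,
            ← edgesOf_reverse (A ++ B.reverse), List.reverse_append, List.reverse_reverse]
      · left
        refine ⟨A, B, hl, hA, hB, rfl, ?_⟩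
        rw [pathOf_eq_iff, e_BA hA hB, hmx, h3]
        obtain ⟨a, rfl⟩ := List.length_eq_one_iff.mp (show A.length = 1 by omega)
        simp [Sym2.eq_swap]
    · exfalso
      obtain ⟨b, rfl⟩ := List.length_eq_one_iff.mp (show B.length = 1 by omega)
      apply hadj.1
      rw [pathOf_eq_iff, e_AB hA hB, hmx, h3]
      simp
  · left
    refine ⟨A, B, hl, hA, hB, rfl, ?_⟩
    rw [pathOf_eq_iff, e_BA hA hB, hmx, h3]

theorem same_rot {P Q : SpanningPath V} (h : Same P Q) :
    ∃ (A B : List V) (h : Ham (A ++ B)), A ≠ [] ∧ B ≠ [] ∧ P = pathOf (A ++ B) h ∧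
      Q = pathOf (B ++ A) h.swap := by
  rcases classify h.1 with h1 | ⟨A, B, hAB, h2, h3, rfl, rfl⟩
  · exact h1
  · exact absurd h (not_same_flip hAB h2 h3)

/-- Common neighbours in the case of the same closure. -/
theorem rot_common {A B : List V} (h : Ham (A ++ B)) (hA : A ≠ []) (hB : B ≠ [])
    (hV : 5 ≤ Fintype.card V)
    {X : SpanningPath V} (h1 : (pathGraph V).Adj (pathOf (A ++ B) h) X)
    (h2 : (pathGraph V).Adj (pathOf (B ++ A) h.swap) X) :
    Same (pathOf (A ++ B) h) X ∨ X = pathOf (A.reverse ++ B) h.revl ∨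
      X = pathOf (A ++ B.reverse) h.revr := by
  have hnd := List.nodup_append.mp h.1
  have hfg : s(A.getLast hA, B.head hB) ≠ s(B.getLast hB, A.head hA) := by
    intro he
    have h3 := (rot_adj h hA hB (by omega)).1
    apply h3
    rw [pathOf_eq_iff, e_AB hA hB, e_BA hA hB, he]
  rcases common hfg (f1_notin h hA hB) (f4_notin h hA hB) (e_AB hA hB) (e_BA hA hB) h1 h2
    with ⟨x, hx, hxf, hxg, hX⟩ | ⟨r, hr, hrX, hX⟩
  · right
    obtain ⟨m, hm, rfl⟩ := exists_pathOf X
    rcases star hA hB h hm.1 hx hX with h3 | h3 | h3 | h3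
    · exact absurd h3 hxf
    · left
      rw [pathOf_eq_iff, e_ArB hA hB, ← h3]; exact hX
    · right
      rw [pathOf_eq_iff, e_ABr hA hB, ← h3]; exact hX
    · exact absurd h3 hxg
  · left
    rw [mem_union] at hr
    rcases hr with hr | hr
    · obtain ⟨A1, A2, hA1, hA2, rfl, hr2⟩ := split_edge hr
      have hH : Ham (A1 ++ (A2 ++ B)) := by rw [← List.append_assoc]; exact h
      have hrn : r ∉ edgesOf A1 ∪ edgesOf A2 := by
        rw [hr2]; exact cross hnd.1 (List.getLast_mem hA1) (List.head_mem hA2)
      have hrB : r ∉ edgesOf B := by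
        intro hc; rw [hr2] at hc
        exact sep h (by simp : A1.getLast hA1 ∈ A1 ++ A2) (mem_of_mem_edgesOf hc).1 rfl
      have hs := same_of_rot hH hA1 (by simp [hB]) hV
      have hX' : X = pathOf (A2 ++ B ++ A1) hH.swap := by
        apply Subtype.ext
        rw [hX]
        change _ = edgesOf (A2 ++ B ++ A1)
        have e1 : (A1 ++ A2).getLast hA = A2.getLast hA2 := List.getLast_append_of_ne_nil _ hA2
        have e2 : (A1 ++ A2).head hA = A1.head hA1 := List.head_append_of_ne_nil hA1
        rw [edgesOf_append (A2 ++ B) A1 (by simp [hB]) hA1, e_AB hA2 hB, e_AB hA1 hA2, ← hr2, e1, e2,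
          List.getLast_append_of_ne_nil _ hB]
        rw [mem_union, not_or] at hrn
        ext e
        simp only [mem_insert, mem_erase, mem_union]
        constructor
        · tauto
        · rintro (h4 | (h4 | (h4 | h4)) | h4)
          · tauto
          · tauto
          · right; right
            refine ⟨?_, Or.inl (Or.inr (Or.inr h4))⟩
            rintro rfl; exact hrn.2 h4
          · right; right
            refine ⟨?_, Or.inr h4⟩
            rintro rfl; exact hrB h4
          · right; right
            refine ⟨?_, Or.inl (Or.inr (Or.inl h4))⟩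
            rintro rfl; exact hrn.1 h4
      rw [hX', pathOf_congr h hH (by simp)]
      exact hs
    · obtain ⟨B1, B2, hB1, hB2, rfl, hr2⟩ := split_edge hr
      have hH : Ham ((A ++ B1) ++ B2) := by rw [List.append_assoc]; exact h
      have hrn : r ∉ edgesOf B1 ∪ edgesOf B2 := by
        rw [hr2]; exact cross hnd.2.1 (List.getLast_mem hB1) (List.head_mem hB2)
      have hrA : r ∉ edgesOf A := by
        intro hc; rw [hr2] at hc
        exact sep h (mem_of_mem_edgesOf hc).1 (by simp : B1.getLast hB1 ∈ B1 ++ B2) rfl
      have hs := same_of_rot hH (by simp [hA]) hB2 hV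
      have hX' : X = pathOf (B2 ++ (A ++ B1)) hH.swap := by
        apply Subtype.ext
        rw [hX]
        change _ = edgesOf (B2 ++ (A ++ B1))
        have e1 : (B1 ++ B2).getLast hB = B2.getLast hB2 := List.getLast_append_of_ne_nil _ hB2
        have e2 : (B1 ++ B2).head hB = B1.head hB1 := List.head_append_of_ne_nil hB1
        rw [edgesOf_append B2 (A ++ B1) hB2 (by simp [hA]), e_AB hA hB1, e_AB hB1 hB2, ← hr2, e1, e2,
          List.head_append_of_ne_nil hA]
        rw [mem_union, not_or] at hrn
        ext e
        simp only [mem_insert, mem_erase, mem_union]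
        constructor
        · tauto
        · rintro (h4 | h4 | h4 | h4 | h4)
          · tauto
          · right; right
            refine ⟨?_, Or.inr (Or.inr (Or.inr h4))⟩
            rintro rfl; exact hrn.2 h4
          · tauto
          · right; right
            refine ⟨?_, Or.inl h4⟩
            rintro rfl; exact hrA h4
          · right; right
            refine ⟨?_, Or.inr (Or.inr (Or.inl h4))⟩
            rintro rfl; exact hrn.1 h4
      rw [hX', pathOf_congr h hH (by simp)]
      exact hs

end Part3

section Part4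

variable {V : Type*} [DecidableEq V] [Fintype V]

theorem pathOf_reverse {l m : List V} (hl : Ham l) (hm : Ham m) (h : l = m.reverse) :
    pathOf l hl = pathOf m hm := by
  rw [pathOf_eq_iff, h, edgesOf_reverse]

/-- what an automorphism does to the rotation by one -/
theorem rot_one (φ : pathGraph V ≃g pathGraph V) (hV : 5 ≤ Fintype.card V) {l m : List V}
    (hl : Ham l) (hm : Ham m) (h : φ (pathOf l hl) = pathOf m hm) :
    φ (pathOf (l.rotate 1) (hl.rotate 1)) = pathOf (m.rotate 1) (hm.rotate 1) ∨
      φ (pathOf (l.rotate 1) (hl.rotate 1)) =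
        pathOf (m.rotate (Fintype.card V - 1)) (hm.rotate _) := by
  have hlen := hl.length
  obtain ⟨a, B, rfl⟩ : ∃ a B, l = a :: B := by
    cases l with
    | nil => simp at hlen; omega
    | cons a B => exact ⟨a, B, rfl⟩
  have hB : 2 ≤ B.length := by simp at hlen; omega
  have hB' : B ≠ [] := by rintro rfl; simp at hB
  have hH : Ham ([a] ++ B) := hl
  have e1 : pathOf ((a :: B).rotate 1) (hl.rotate 1) = pathOf (B ++ [a]) hH.swap :=
    pathOf_congr _ _ (by
      have := List.rotate_append_length_eq [a] B
      simpa using this)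
  rw [e1]
  have hs := (same_of_rot hH (by simp) hB' hV).map φ
  obtain ⟨A', B', hAB, hA', hB', h1, h2⟩ := same_rot hs
  have h3 : pathOf (A' ++ B') hAB = pathOf m hm := by rw [← h1]; exact h
  rw [pathOf_eq_iff] at h3
  have hA1 := List.length_pos_iff.mpr hA'
  have hB1 := List.length_pos_iff.mpr hB'
  have hlen2 := hAB.length
  rw [List.length_append] at hlen2
  have key : A'.length = 1 ∨ B'.length = 1 := by
    by_contra hcon
    push Not at hcon
    have k1 := flip_adj hAB (by omega) hB'
    have k2 := flip_adj' hAB hA' (by omega)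
    have k3 := not_same_flip hAB (by omega) (by omega)
    set X' := pathOf (A'.reverse ++ B') hAB.revl
    have hX : φ (φ.symm X') = X' := φ.apply_symm_apply X'
    have j1 : (pathGraph V).Adj (pathOf ([a] ++ B) hH) (φ.symm X') := by
      rw [← φ.map_rel_iff, hX, h1]; exact k1
    have j2 : (pathGraph V).Adj (pathOf (B ++ [a]) hH.swap) (φ.symm X') := by
      rw [← φ.map_rel_iff, hX, h2]; exact k2
    rcases rot_common hH (by simp) (by assumption) hV j1 j2 with j3 | j3 | j3
    · apply k3
      have := j3.map φ
      rw [hX, h1] at this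
      exact this
    · apply j1.1
      rw [j3]
      exact pathOf_congr _ _ (by simp)
    · apply j2.1
      rw [j3]
      exact pathOf_reverse _ _ (by simp)
  have hnd : A' ++ B' = m ∨ A' ++ B' = m.reverse :=
    edgesOf_inj hAB.1 hm.1 (fun v => ⟨fun _ => hm.2 v, fun _ => hAB.2 v⟩) h3
  rw [h2]
  rcases hnd with hnd | hnd
  · subst hnd
    rcases key with k | k
    · left
      exact pathOf_congr _ _ (by rw [← k, List.rotate_append_length_eq])
    · right
      have : Fintype.card V - 1 = A'.length := by omega
      exact pathOf_congr _ _ (by rw [this, List.rotate_append_length_eq])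
  · have hm' : m = B'.reverse ++ A'.reverse := by
      rw [← List.reverse_append, hnd, List.reverse_reverse]
    subst hm'
    rcases key with k | k
    · right
      have : Fintype.card V - 1 = B'.reverse.length := by rw [List.length_reverse]; omega
      apply pathOf_reverse
      rw [this, List.rotate_append_length_eq]; simp
    · left
      apply pathOf_reverse
      have : 1 = B'.reverse.length := by rw [List.length_reverse]; omega
      rw [this, List.rotate_append_length_eq]; simp

/-- an automorphism maps the rotations of a sequence to the rotations of a sequence -/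
theorem rot_all (φ : pathGraph V ≃g pathGraph V) (hV : 5 ≤ Fintype.card V) {l : List V}
    (hl : Ham l) : ∃ (m : List V) (hm : Ham m), ∀ k,
      φ (pathOf (l.rotate k) (hl.rotate k)) = pathOf (m.rotate k) (hm.rotate k) := by
  obtain ⟨m0, hm0, h0⟩ := exists_pathOf (φ (pathOf l hl))
  have hstart : ∃ (m : List V) (hm : Ham m), φ (pathOf (l.rotate 0) (hl.rotate 0)) =
      pathOf (m.rotate 0) (hm.rotate 0) ∧
      φ (pathOf (l.rotate 1) (hl.rotate 1)) = pathOf (m.rotate 1) (hm.rotate 1) := by
    have e0 : pathOf (l.rotate 0) (hl.rotate 0) = pathOf l hl := pathOf_congr _ _ (by simp)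
    rcases rot_one φ hV hl hm0 h0 with h1 | h1
    · refine ⟨m0, hm0, ?_, h1⟩
      rw [e0, h0]
      exact pathOf_congr _ _ (by simp)
    · refine ⟨m0.reverse, hm0.reverse, ?_, ?_⟩
      · rw [e0, h0]
        exact (pathOf_reverse _ _ (by simp)).symm
      · rw [h1]
        symm
        apply pathOf_reverse
        rw [List.rotate_reverse, hm0.length, Nat.mod_eq_of_lt (by omega)]
  obtain ⟨m, hm, hs0, hs1⟩ := hstart
  refine ⟨m, hm, ?_⟩
  have key : ∀ k, φ (pathOf (l.rotate k) (hl.rotate k)) = pathOf (m.rotate k) (hm.rotate k) ∧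
      φ (pathOf (l.rotate (k + 1)) (hl.rotate (k + 1))) =
        pathOf (m.rotate (k + 1)) (hm.rotate (k + 1)) := by
    intro k
    induction k with
    | zero => exact ⟨hs0, hs1⟩
    | succ k ih =>
      refine ⟨ih.2, ?_⟩
      have e1 : pathOf (l.rotate (k + 1 + 1)) (hl.rotate (k + 1 + 1)) =
          pathOf ((l.rotate (k + 1)).rotate 1) ((hl.rotate (k + 1)).rotate 1) :=
        pathOf_congr _ _ (by rw [List.rotate_rotate])
      rw [e1]
      rcases rot_one φ hV (hl.rotate (k + 1)) (hm.rotate (k + 1)) ih.2 with h1 | h1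
      · rw [h1]
        exact pathOf_congr _ _ (by rw [List.rotate_rotate])
      · exfalso
        have e2 : pathOf ((m.rotate (k + 1)).rotate (Fintype.card V - 1))
            ((hm.rotate (k + 1)).rotate _) = pathOf (m.rotate k) (hm.rotate k) := by
          apply pathOf_congr
          rw [List.rotate_rotate]
          have : k + 1 + (Fintype.card V - 1) = k + m.length := by
            rw [hm.length]; omega
          rw [this, ← List.rotate_rotate]
          have h5 : (m.rotate k).rotate (m.rotate k).length = m.rotate k := List.rotate_length _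
          rw [List.length_rotate] at h5
          exact h5
        rw [e2, ← ih.1] at h1
        have h2 := φ.injective h1
        have h3 := rotate_adj' (hl.rotate k) (by omega) (show 0 ≠ 2 by omega)
          (show 0 < Fintype.card V by omega) (show 2 < Fintype.card V by omega)
        apply h3.1
        rw [pathOf_congr ((hl.rotate k).rotate 0) (hl.rotate k) (by simp),
          pathOf_congr ((hl.rotate k).rotate 2) ((hl.rotate (k + 1)).rotate 1)
            (by rw [List.rotate_rotate, List.rotate_rotate])]
        exact h2.symm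
  exact fun k => (key k).1

/-- flips of the second part -/
theorem flipr_adj {A B : List V} (h : Ham (A ++ B)) (hA : A ≠ []) (hB : 2 ≤ B.length) :
    (pathGraph V).Adj (pathOf (A ++ B) h) (pathOf (A ++ B.reverse) h.revr) := by
  have hr : Ham (B.reverse ++ A.reverse) := by
    rw [← List.reverse_append]; exact h.reverse
  have := flip_adj hr (by simpa using hB) (by simpa using hA)
  rw [pathOf_reverse h hr (by simp), pathOf_reverse h.revr hr.revl (by simp)]
  exact this

theorem flipr_adj' {A B : List V} (h : Ham (A ++ B)) (hA : 2 ≤ A.length) (hB : B ≠ []) :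
    (pathGraph V).Adj (pathOf (B ++ A) h.swap) (pathOf (A ++ B.reverse) h.revr) := by
  have hr : Ham (B.reverse ++ A.reverse) := by
    rw [← List.reverse_append]; exact h.reverse
  have := flip_adj' hr (by simpa using hB) (by simpa using hA)
  rw [pathOf_reverse h.swap hr.swap (by simp), pathOf_reverse h.revr hr.revl (by simp)]
  exact this

theorem not_same_flipr {A B : List V} (h : Ham (A ++ B)) (hA : 2 ≤ A.length)
    (hB : 2 ≤ B.length) :
    ¬ Same (pathOf (A ++ B) h) (pathOf (A ++ B.reverse) h.revr) := by
  have hr : Ham (B.reverse ++ A.reverse) := by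
    rw [← List.reverse_append]; exact h.reverse
  have := not_same_flip hr (by simpa using hB) (by simpa using hA)
  rw [pathOf_reverse h hr (by simp), pathOf_reverse h.revr hr.revl (by simp)]
  exact this

/-- an automorphism fixing `A++B` and `B++A` preserves `{A.reverse++B, A++B.reverse}` -/
theorem fix_pair (ψ : pathGraph V ≃g pathGraph V) (hV : 5 ≤ Fintype.card V) {A B : List V}
    (h : Ham (A ++ B)) (hA : 2 ≤ A.length) (hB : 2 ≤ B.length)
    (h1 : ψ (pathOf (A ++ B) h) = pathOf (A ++ B) h)
    (h2 : ψ (pathOf (B ++ A) h.swap) = pathOf (B ++ A) h.swap) :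
    (ψ (pathOf (A.reverse ++ B) h.revl) = pathOf (A.reverse ++ B) h.revl ∨
      ψ (pathOf (A.reverse ++ B) h.revl) = pathOf (A ++ B.reverse) h.revr) ∧
    (ψ (pathOf (A ++ B.reverse) h.revr) = pathOf (A.reverse ++ B) h.revl ∨
      ψ (pathOf (A ++ B.reverse) h.revr) = pathOf (A ++ B.reverse) h.revr) := by
  have hA' : A ≠ [] := by rintro rfl; simp at hA
  have hB' : B ≠ [] := by rintro rfl; simp at hB
  have hP : ψ.symm (pathOf (A ++ B) h) = pathOf (A ++ B) h := by
    rw [← h1, ψ.symm_apply_apply, h1]
  constructor
  · have k1 := flip_adj h (by omega) hB'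
    have k2 := flip_adj' h hA' (by omega)
    have k3 := not_same_flip h (by omega) (by omega)
    rw [← ψ.map_rel_iff, h1] at k1
    rw [← ψ.map_rel_iff, h2] at k2
    rcases rot_common h hA' hB' hV k1 k2 with j | j | j
    · exfalso
      apply k3
      have := j.map ψ.symm
      rw [hP, ψ.symm_apply_apply] at this
      exact this
    · exact Or.inl j
    · exact Or.inr j
  · have k1 := flipr_adj h hA' (by omega)
    have k2 := flipr_adj' h (by omega) hB'
    have k3 := not_same_flipr h (by omega) (by omega)
    rw [← ψ.map_rel_iff, h1] at k1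
    rw [← ψ.map_rel_iff, h2] at k2
    rcases rot_common h hA' hB' hV k1 k2 with j | j | j
    · exfalso
      apply k3
      have := j.map ψ.symm
      rw [hP, ψ.symm_apply_apply] at this
      exact this
    · exact Or.inl j
    · exact Or.inr j

/-- common neighbours of two spanning paths which differ in two edges -/
theorem common4 {Q R X : SpanningPath V} {D : Finset (Sym2 V)} {u v w z : Sym2 V}
    (huv : u ≠ v) (hwz : w ≠ z) (hQ : Q.1 = insert u (insert v D))
    (hR : R.1 = insert w (insert z D)) (hw : w ∉ Q.1) (hz : z ∉ Q.1)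
    (h1 : (pathGraph V).Adj Q X) (h2 : (pathGraph V).Adj R X) :
    D ⊆ X.1 ∧ (u ∈ X.1 ∨ v ∈ X.1) ∧ (w ∈ X.1 ∨ z ∈ X.1) := by
  obtain ⟨q, hq, hqX, hq'⟩ := adj_out h1
  obtain ⟨r, hr, hrX, hr'⟩ := adj_out h2
  by_cases hqD : q ∈ D
  · exfalso
    have hqr : q = r := by
      by_contra hne
      exact hqX (hr' q (by rw [hR]; simp [hqD]) hne)
    subst hqr
    have hwX : w ∈ X.1 := hr' w (by rw [hR]; simp) (by rintro rfl; exact hw hq)
    have hzX : z ∈ X.1 := hr' z (by rw [hR]; simp) (by rintro rfl; exact hz hq)
    have hsub : insert w (insert z (Q.1.erase q)) ⊆ X.1 := by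
      intro e he
      simp only [mem_insert, mem_erase] at he
      rcases he with rfl | rfl | ⟨h3, h4⟩
      · exact hwX
      · exact hzX
      · exact hq' e h4 h3
    have hc := card_le_card hsub
    rw [card_insert_of_notMem, card_insert_of_notMem, card_erase_of_mem hq, card_path,
      card_path] at hc
    · have c1 : 0 < Q.1.card := card_pos.mpr ⟨_, hq⟩
      rw [card_path] at c1
      omega
    · simp [hz]
    · simp [hwz, hw]
  · have hqc : q = u ∨ q = v := by
      rw [hQ] at hq
      simp only [mem_insert] at hq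
      tauto
    have hDX : D ⊆ X.1 := by
      intro e he
      exact hq' e (by rw [hQ]; simp [he]) (by rintro rfl; exact hqD he)
    have hrD : r ∉ D := fun h => hrX (hDX h)
    have hrc : r = w ∨ r = z := by
      rw [hR] at hr
      simp only [mem_insert] at hr
      tauto
    refine ⟨hDX, ?_, ?_⟩
    · rcases hqc with rfl | rfl
      · right; exact hq' v (by rw [hQ]; simp) huv.symm
      · left; exact hq' u (by rw [hQ]; simp) huv
    · rcases hrc with rfl | rfl
      · right; exact hr' z (by rw [hR]; simp) hwz.symm
      · left; exact hr' w (by rw [hR]; simp) hwz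

theorem second {C : List V} (h2 : 2 ≤ C.length) (hne : C ≠ []) :
    ∃ y ∈ C, s(C.head hne, y) ∈ edgesOf C := by
  match C, h2, hne with
  | x :: y :: C, _, _ => exact ⟨y, by simp, by simp⟩

theorem penult {C : List V} (h2 : 2 ≤ C.length) (hne : C ≠ []) :
    ∃ y ∈ C, s(C.getLast hne, y) ∈ edgesOf C := by
  obtain ⟨y, h3, h4⟩ := second (C := C.reverse) (by simpa using h2) (by simpa using hne)
  refine ⟨y, by simpa using h3, ?_⟩
  rw [edgesOf_reverse, List.head_reverse] at h4
  exact h4

theorem ne_sym2 {a b c d : V} (h1 : a ≠ c) (h2 : a ≠ d) : s(a, b) ≠ s(c, d) := by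
  intro hh
  rcases Sym2.eq_iff.mp hh with ⟨h, _⟩ | ⟨h, _⟩
  · exact h1 h
  · exact h2 h

theorem ne_sym2' {a b c d : V} (h1 : b ≠ c) (h2 : b ≠ d) : s(a, b) ≠ s(c, d) := by
  rw [Sym2.eq_swap]; exact ne_sym2 h1 h2

theorem cons_edges (c : V) {C : List V} (hne : C ≠ []) :
    edgesOf (c :: C) = insert s(c, C.head hne) (edgesOf C) := by
  have := edgesOf_append [c] C (by simp) hne
  simpa using this

theorem edges_P (a b c : V) {C : List V} (hne : C ≠ []) : edgesOf ([a, b] ++ (c :: C)) =
    insert s(b, c) (insert s(c, C.head hne) (insert s(a, b) (edgesOf C))) := by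
  rw [e_AB (by simp) (by simp), cons_edges c hne]
  ext e
  simp only [List.getLast_cons_cons, List.getLast_singleton, List.head_cons, edgesOf_cons_cons,
    edgesOf_single, mem_insert, mem_union, notMem_empty]
  tauto

theorem edges_s2 (a b c : V) {C : List V} (hne : C ≠ []) :
    edgesOf ([a, b] ++ (c :: C).reverse) =
      insert s(c, C.head hne) (insert s(b, C.getLast hne) (insert s(a, b) (edgesOf C))) := by
  rw [e_ABr (by simp) (by simp), cons_edges c hne]
  ext e
  simp only [List.getLast_cons_cons, List.getLast_singleton, List.head_cons, edgesOf_cons_cons,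
    edgesOf_single, mem_insert, mem_union, notMem_empty, List.getLast_cons hne]
  tauto

theorem edges_s3 (a b c : V) {C : List V} (hne : C ≠ []) :
    edgesOf ([a, b, c] ++ C.reverse) =
      insert s(b, c) (insert s(c, C.getLast hne) (insert s(a, b) (edgesOf C))) := by
  rw [e_ABr (by simp) hne]
  ext e
  simp only [List.getLast_cons_cons, List.getLast_singleton, List.head_cons, edgesOf_cons_cons,
    edgesOf_single, mem_insert, mem_union, notMem_empty]
  tauto

theorem edges_p3 (a b c : V) {C : List V} (hne : C ≠ []) :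
    edgesOf ([a, b, c].reverse ++ C) =
      insert s(b, c) (insert s(a, C.head hne) (insert s(a, b) (edgesOf C))) := by
  rw [e_ArB (by simp) hne]
  ext e
  simp only [List.getLast_cons_cons, List.getLast_singleton, List.head_cons, edgesOf_cons_cons,
    edgesOf_single, mem_insert, mem_union, notMem_empty]
  tauto

/-- the two flips cannot be interchanged -/
theorem no_swap (ψ : pathGraph V ≃g pathGraph V) (hV : 5 ≤ Fintype.card V) {a b c : V}
    {C : List V} (h : Ham ([a, b] ++ (c :: C)))
    (hfix : ∀ k, ψ (pathOf (([a, b] ++ (c :: C)).rotate k) (h.rotate k)) =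
      pathOf (([a, b] ++ (c :: C)).rotate k) (h.rotate k)) :
    ψ (pathOf ([a, b].reverse ++ (c :: C)) h.revl) = pathOf ([a, b].reverse ++ (c :: C)) h.revl ∧
    ψ (pathOf ([a, b] ++ (c :: C).reverse) h.revr) = pathOf ([a, b] ++ (c :: C).reverse) h.revr := by
  have hlen := h.length
  simp only [List.length_append, List.length_cons, List.length_nil] at hlen
  have hC2 : 2 ≤ C.length := by omega
  have hCne : C ≠ [] := by rintro rfl; simp at hC2
  have h3 : Ham ([a, b, c] ++ C) := h
  -- fixed paths
  have f0 : ψ (pathOf ([a, b] ++ (c :: C)) h) = pathOf ([a, b] ++ (c :: C)) h := by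
    have := hfix 0
    rwa [pathOf_congr (h.rotate 0) h (by simp)] at this
  have f0' : ψ (pathOf ([a, b, c] ++ C) h3) = pathOf ([a, b, c] ++ C) h3 := f0
  have f2 : ψ (pathOf ((c :: C) ++ [a, b]) h.swap) = pathOf ((c :: C) ++ [a, b]) h.swap := by
    have := hfix 2
    have e : ([a, b] ++ (c :: C)).rotate 2 = (c :: C) ++ [a, b] :=
      List.rotate_append_length_eq [a, b] (c :: C)
    rwa [pathOf_congr (h.rotate 2) h.swap e] at this
  have f3 : ψ (pathOf (C ++ [a, b, c]) h3.swap) = pathOf (C ++ [a, b, c]) h3.swap := by
    have := hfix 3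
    have e : ([a, b] ++ (c :: C)).rotate 3 = C ++ [a, b, c] :=
      List.rotate_append_length_eq [a, b, c] C
    rwa [pathOf_congr (h.rotate 3) h3.swap e] at this
  have p2 := fix_pair ψ hV h (by simp) (by simp; omega) f0 f2
  have p3 := fix_pair ψ hV h3 (by simp) hC2 f0' f3
  have hnd := h.1
  simp only [List.cons_append, List.nil_append, List.nodup_cons, List.mem_cons, not_or] at hnd
  obtain ⟨⟨hab, hac, haC⟩, ⟨hbc, hbC⟩, hcC, hCn⟩ := hnd
  -- the extreme vertices of `C`
  have hx : C.head hCne ∈ C := List.head_mem hCne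
  have hz : C.getLast hCne ∈ C := List.getLast_mem hCne
  have hxz := head_ne_last hCn hC2 hCne
  obtain ⟨y, hyC, hy⟩ := second hC2 hCne
  obtain ⟨p, hpC, hp⟩ := penult hC2 hCne
  set x := C.head hCne with hxdef
  set z := C.getLast hCne with hzdef
  have nax : a ≠ x := fun h => haC (h ▸ hx)
  have naz : a ≠ z := fun h => haC (h ▸ hz)
  have nbx : b ≠ x := fun h => hbC (h ▸ hx)
  have nbz : b ≠ z := fun h => hbC (h ▸ hz)
  have ncx : c ≠ x := fun h => hcC (h ▸ hx)
  have ncz : c ≠ z := fun h => hcC (h ▸ hz)
  have nay : a ≠ y := fun h => haC (h ▸ hyC)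
  have nby : b ≠ y := fun h => hbC (h ▸ hyC)
  have ncy : c ≠ y := fun h => hcC (h ▸ hyC)
  have nap : a ≠ p := fun h => haC (h ▸ hpC)
  have nbp : b ≠ p := fun h => hbC (h ▸ hpC)
  have ncp : c ≠ p := fun h => hcC (h ▸ hpC)
  have ecC : edgesOf (c :: C) = insert s(c, x) (edgesOf C) := cons_edges c hCne
  -- the edge sets
  have eP : edgesOf ([a, b] ++ (c :: C)) =
      insert s(b, c) (insert s(c, x) (insert s(a, b) (edgesOf C))) := edges_P a b c hCne
  have es2 : edgesOf ([a, b] ++ (c :: C).reverse) =
      insert s(c, x) (insert s(b, z) (insert s(a, b) (edgesOf C))) := edges_s2 a b c hCne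
  have es3 : edgesOf ([a, b, c] ++ C.reverse) =
      insert s(b, c) (insert s(c, z) (insert s(a, b) (edgesOf C))) := edges_s3 a b c hCne
  have ep3 : edgesOf ([a, b, c].reverse ++ C) =
      insert s(b, c) (insert s(a, x) (insert s(a, b) (edgesOf C))) := edges_p3 a b c hCne
  -- the witness
  have hX1 : Ham ([b, a, c] ++ C) := h.revl
  have hX2 : Ham ([a, b] ++ (c :: C.reverse)) := h3.revr
  have a1 : (pathGraph V).Adj (pathOf ([a, b].reverse ++ (c :: C)) h.revl)
      (pathOf ([b, a, c] ++ C.reverse) hX1.revr) := flipr_adj hX1 (by simp) hC2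
  have a2 : (pathGraph V).Adj (pathOf ([a, b, c] ++ C.reverse) h3.revr)
      (pathOf ([b, a, c] ++ C.reverse) hX1.revr) := flip_adj hX2 (by simp) (by simp)
  have a3 : pathOf ([b, a, c] ++ C.reverse) hX1.revr ≠ pathOf ([a, b] ++ (c :: C)) h := by
    intro he
    rw [pathOf_eq_iff] at he
    have m1 : s(a, c) ∈ edgesOf ([a, b] ++ (c :: C)) := by
      rw [← he]; simp
    have m2 : s(a, b) ∈ edgesOf ([a, b] ++ (c :: C)) := by simp
    exact hbc (head_deg h.1 m2 m1)
  set X := pathOf ([b, a, c] ++ C.reverse) hX1.revr with hXdef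
  -- the first claim
  have main : ψ (pathOf ([a, b].reverse ++ (c :: C)) h.revl) =
      pathOf ([a, b].reverse ++ (c :: C)) h.revl := by
    rcases p2.1 with hp2 | hp2
    · exact hp2
    · exfalso
      have b1 := ψ.map_rel_iff.mpr a1
      have b2 := ψ.map_rel_iff.mpr a2
      have b3 : ψ X ≠ pathOf ([a, b] ++ (c :: C)) h := by
        rw [← f0]; exact ψ.injective.ne a3
      rw [hp2] at b1
      obtain ⟨m, hm, hY⟩ := exists_pathOf (ψ X)
      rw [hY] at b1 b2 b3
      have notP : ¬ (insert s(a, b) (edgesOf C) ⊆ edgesOf m ∧ s(c, x) ∈ edgesOf m ∧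
          s(b, c) ∈ edgesOf m) := by
        rintro ⟨n1, n2, n3⟩
        apply b3
        symm
        apply path_ext_of_subset
        change edgesOf ([a, b] ++ (c :: C)) ⊆ edgesOf m
        rw [eP]
        intro e he
        simp only [mem_insert] at he
        rcases he with rfl | rfl | he
        · exact n3
        · exact n2
        · exact n1 (by simpa using he)
      rcases p3.2 with hp3 | hp3
      · -- ψ s₃ = p₃
        rw [hp3] at b2
        obtain ⟨c1, c2, c3⟩ := common4 (u := s(c, x)) (v := s(b, z)) (w := s(b, c))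
          (z := s(a, x)) (D := insert s(a, b) (edgesOf C))
          (ne_sym2 (Ne.symm hbc) ncz) (ne_sym2 (Ne.symm hab) nbx)
          es2 ep3
          (by
            change _ ∉ edgesOf ([a, b] ++ (c :: C).reverse)
            rw [es2]; simp only [mem_insert, not_or]
            exact ⟨ne_sym2 hbc nbx, ne_sym2' (Ne.symm hbc) ncz, ne_sym2' (Ne.symm hac) (Ne.symm hbc),
              fun hh => hbC (mem_of_mem_edgesOf hh).1⟩)
          (by
            change _ ∉ edgesOf ([a, b] ++ (c :: C).reverse)
            rw [es2]; simp only [mem_insert, not_or]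
            exact ⟨ne_sym2 hac nax, ne_sym2 hab naz, ne_sym2' nax.symm nbx.symm,
              fun hh => haC (mem_of_mem_edgesOf hh).1⟩) b1 b2
        change insert s(a, b) (edgesOf C) ⊆ edgesOf m at c1
        change s(c, x) ∈ edgesOf m ∨ s(b, z) ∈ edgesOf m at c2
        change s(b, c) ∈ edgesOf m ∨ s(a, x) ∈ edgesOf m at c3
        have cab : s(a, b) ∈ edgesOf m := c1 (by simp)
        have cC : edgesOf C ⊆ edgesOf m := fun e he => c1 (by simp [he])
        rcases c2 with c2 | c2 <;> rcases c3 with c3 | c3
        · exact notP ⟨c1, c2, c3⟩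
        · refine deg_three hm.1 (v := x) (a := c) (b := a) (c := y) ?_ ?_ (cC hy) ?_ ?_ ?_
          · rw [Sym2.eq_swap]; exact c2
          · rw [Sym2.eq_swap]; exact c3
          · exact fun h => hac h.symm
          · exact ncy
          · exact nay
        · refine deg_three hm.1 (v := b) (a := z) (b := c) (c := a) c2 c3 ?_ ?_ ?_ ?_
          · rw [Sym2.eq_swap]; exact cab
          · exact ncz.symm
          · exact naz.symm
          · exact fun h => hac h.symm
        · have hL : (b :: a :: C).Nodup := by
            simp only [List.nodup_cons, List.mem_cons, not_or]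
            exact ⟨⟨fun h => hab h.symm, hbC⟩, haC, hCn⟩
          have eL : edgesOf (b :: a :: C) = insert s(a, b) (insert s(a, x) (edgesOf C)) := by
            have := edgesOf_append [a] C (by simp) hCne
            simp only [List.cons_append, List.nil_append, List.getLast_singleton,
              edgesOf_single, empty_union] at this
            rw [edgesOf_cons_cons, this, Sym2.eq_swap]
          have c5 := closing hm.1 hL (by simp) (by
            rw [eL]; intro e he
            simp only [mem_insert] at he
            rcases he with rfl | rfl | he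
            · exact cab
            · exact c3
            · exact cC he) (by
              simp only [List.head_cons, List.getLast_cons_cons, List.getLast_cons hCne]
              exact c2)
          simp only [List.head_cons, List.getLast_cons_cons, List.getLast_cons hCne] at c5
          exact naz (head_deg hL (by simp : s(b, a) ∈ edgesOf (b :: a :: C)) c5)
      · -- ψ s₃ = s₃
        rw [hp3] at b2
        obtain ⟨c1, c2, c3⟩ := common4 (u := s(c, x)) (v := s(b, z)) (w := s(b, c))
          (z := s(c, z)) (D := insert s(a, b) (edgesOf C))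
          (ne_sym2 (Ne.symm hbc) ncz) (ne_sym2 hbc nbz)
          es2 es3
          (by
            change _ ∉ edgesOf ([a, b] ++ (c :: C).reverse)
            rw [es2]; simp only [mem_insert, not_or]
            exact ⟨ne_sym2 hbc nbx, ne_sym2' (Ne.symm hbc) ncz, ne_sym2' (Ne.symm hac) (Ne.symm hbc),
              fun hh => hbC (mem_of_mem_edgesOf hh).1⟩)
          (by
            change _ ∉ edgesOf ([a, b] ++ (c :: C).reverse)
            rw [es2]; simp only [mem_insert, not_or]
            exact ⟨ne_sym2' ncz.symm hxz.symm, ne_sym2 (Ne.symm hbc) ncz, ne_sym2 (Ne.symm hac) (Ne.symm hbc),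
              fun hh => hcC (mem_of_mem_edgesOf hh).1⟩) b1 b2
        change insert s(a, b) (edgesOf C) ⊆ edgesOf m at c1
        change s(c, x) ∈ edgesOf m ∨ s(b, z) ∈ edgesOf m at c2
        change s(b, c) ∈ edgesOf m ∨ s(c, z) ∈ edgesOf m at c3
        have cab : s(a, b) ∈ edgesOf m := c1 (by simp)
        have cC : edgesOf C ⊆ edgesOf m := fun e he => c1 (by simp [he])
        rcases c2 with c2 | c2 <;> rcases c3 with c3 | c3
        · exact notP ⟨c1, c2, c3⟩
        · have hL : (c :: C).Nodup := by
            simp only [List.nodup_cons]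
            exact ⟨hcC, hCn⟩
          have c5 := closing hm.1 hL (by simp) (by
            rw [ecC]; intro e he
            simp only [mem_insert] at he
            rcases he with rfl | he
            · exact c2
            · exact cC he) (by
              simp only [List.head_cons, List.getLast_cons hCne]
              exact c3)
          simp only [List.head_cons, List.getLast_cons hCne] at c5
          exact hxz (head_deg hL (by rw [ecC]; simp) c5)
        · refine deg_three hm.1 (v := b) (a := z) (b := c) (c := a) c2 c3 ?_ ?_ ?_ ?_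
          · rw [Sym2.eq_swap]; exact cab
          · exact ncz.symm
          · exact naz.symm
          · exact fun h => hac h.symm
        · refine deg_three hm.1 (v := z) (a := b) (b := c) (c := p) ?_ ?_ (cC hp) ?_ ?_ ?_
          · rw [Sym2.eq_swap]; exact c2
          · rw [Sym2.eq_swap]; exact c3
          · exact hbc
          · exact nbp
          · exact ncp
  refine ⟨main, ?_⟩
  rcases p2.2 with h4 | h4
  · exfalso
    have h5 := ψ.injective (main.trans h4.symm)
    rw [pathOf_eq_iff, e_ArB (by simp) (by simp), e_ABr (by simp) (by simp)] at h5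
    have h6 : s(a, c) ∈ insert s(b, z) (edgesOf [a, b] ∪ edgesOf (c :: C)) := by
      have : s(a, c) ∈ insert s(a, c) (edgesOf [a, b] ∪ edgesOf (c :: C)) := by simp
      simp only [List.head_cons, List.getLast_cons_cons, List.getLast_cons hCne,
        List.getLast_singleton] at h5
      rw [h5] at this
      exact this
    rw [mem_insert] at h6
    rcases h6 with h6 | h6
    · rcases Sym2.eq_iff.mp h6 with ⟨h7, _⟩ | ⟨h7, _⟩
      · exact hab h7
      · exact naz h7
    · exact cross h.1 (by simp : a ∈ [a, b]) (by simp : c ∈ c :: C) h6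
  · exact h4

end Part4

section Part5

variable {V : Type*} [DecidableEq V] [Fintype V]

/-- `ψ` fixes all rotations of `l` -/
def Fixes (ψ : pathGraph V ≃g pathGraph V) (l : List V) : Prop :=
  ∃ h : Ham l, ∀ k, ψ (pathOf (l.rotate k) (h.rotate k)) = pathOf (l.rotate k) (h.rotate k)

theorem Fixes.rotate {ψ : pathGraph V ≃g pathGraph V} {l : List V} (h : Fixes ψ l) (j : ℕ) :
    Fixes ψ (l.rotate j) := by
  obtain ⟨h1, h2⟩ := h
  refine ⟨h1.rotate j, fun k => ?_⟩
  rw [pathOf_congr ((h1.rotate j).rotate k) (h1.rotate (j + k)) (by rw [List.rotate_rotate])]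
  exact h2 _

theorem Fixes.swap {ψ : pathGraph V ≃g pathGraph V} (hV : 5 ≤ Fintype.card V) {a b : V}
    {L : List V} (h : Fixes ψ (a :: b :: L)) : Fixes ψ (b :: a :: L) := by
  obtain ⟨h1, h2⟩ := h
  have hlen := h1.length
  simp only [List.length_cons] at hlen
  obtain ⟨c, C, rfl⟩ : ∃ c C, L = c :: C := by
    cases L with
    | nil => simp at hlen; omega
    | cons c C => exact ⟨c, C, rfl⟩
  obtain ⟨k1, k2⟩ := no_swap ψ hV (a := a) (b := b) (c := c) (C := C) h1 h2
  have hl' : Ham (b :: a :: c :: C) := Ham.revl (A := [a, b]) (B := c :: C) h1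
  obtain ⟨m, hm, hall⟩ := rot_all ψ hV hl'
  have g0 : pathOf (b :: a :: c :: C) hl' = pathOf m hm := by
    have := hall 0
    rw [pathOf_congr (hl'.rotate 0) hl' (by simp), pathOf_congr (hm.rotate 0) hm (by simp)] at this
    rw [← this]
    exact k1.symm
  have e2 : (b :: a :: c :: C).rotate 2 = (c :: C) ++ [b, a] :=
    List.rotate_append_length_eq [b, a] (c :: C)
  have hs : Ham ([a, b] ++ (c :: C)) := h1
  have g2 : pathOf ((b :: a :: c :: C).rotate 2) (hl'.rotate 2) = pathOf (m.rotate 2) (hm.rotate 2) := by
    have := hall 2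
    rw [← this]
    have e3 : pathOf ((b :: a :: c :: C).rotate 2) (hl'.rotate 2) =
        pathOf ([a, b] ++ (c :: C).reverse) hs.revr :=
      pathOf_reverse _ _ (by rw [e2]; simp)
    rw [e3]
    exact k2.symm
  refine ⟨hl', ?_⟩
  rw [pathOf_eq_iff] at g0
  rcases edgesOf_inj hl'.1 hm.1 (fun v => ⟨fun _ => hm.2 v, fun _ => hl'.2 v⟩) g0 with g1 | g1
  · intro k
    rw [hall k]
    exact pathOf_congr _ _ (by rw [g1])
  · exfalso
    have hml := hm.length
    have g3 : m = (b :: a :: c :: C).reverse := by rw [g1, List.reverse_reverse]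
    have g4 : pathOf (m.rotate 2) (hm.rotate 2) =
        pathOf ((b :: a :: c :: C).rotate (Fintype.card V - 2)) (hl'.rotate _) := by
      apply pathOf_reverse
      rw [g3, List.rotate_reverse, hl'.length, Nat.mod_eq_of_lt (by omega)]
    rw [g4] at g2
    have := rotate_adj' hl' (by omega) (show 2 ≠ Fintype.card V - 2 by omega)
      (by omega) (by omega)
    exact this.1 g2

theorem Fixes.perm {ψ : pathGraph V ≃g pathGraph V} (hV : 5 ≤ Fintype.card V) {l m : List V}
    (hp : l.Perm m) : ∀ C : List V, Fixes ψ (C ++ l) → Fixes ψ (C ++ m) := by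
  induction hp with
  | nil => exact fun C h => h
  | cons x _ ih =>
    intro C h
    have := ih (C ++ [x]) (by simpa using h)
    simpa using this
  | swap x y l =>
    intro C h
    have h1 := h.rotate C.length
    rw [List.rotate_append_length_eq] at h1
    have h2 := Fixes.swap hV h1
    have h3 := h2.rotate (x :: y :: l).length
    change Fixes ψ ((x :: y :: (l ++ C)).rotate _) at h3
    have e : (x :: y :: (l ++ C)).rotate (x :: y :: l).length = C ++ (x :: y :: l) :=
      List.rotate_append_length_eq (x :: y :: l) C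
    rw [e] at h3
    exact h3
  | trans _ _ ih1 ih2 => exact fun C h => ih2 C (ih1 C h)

theorem Fixes.all {ψ : pathGraph V ≃g pathGraph V} (hV : 5 ≤ Fintype.card V) {l : List V}
    (h : Fixes ψ l) (P : SpanningPath V) : ψ P = P := by
  obtain ⟨m, hm, rfl⟩ := exists_pathOf P
  have hp : l.Perm m := by
    rw [List.perm_ext_iff_of_nodup h.1.1 hm.1]
    exact fun v => ⟨fun _ => hm.2 v, fun _ => h.1.2 v⟩
  obtain ⟨h1, h2⟩ := Fixes.perm hV hp [] h
  have := h2 0
  rwa [pathOf_congr (h1.rotate 0) hm (by simp)] at this

/-- The image of a spanning path under a permutation of the vertices. -/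
def mapPath (π : Equiv.Perm V) (P : SpanningPath V) : SpanningPath V :=
  ⟨P.1.image (Sym2.map π), by
    obtain ⟨P, l, h, rfl⟩ := P
    refine ⟨l.map π, ⟨h.1.map π.injective, fun v => ?_⟩, (edgesOf_map π l).symm⟩
    rw [List.mem_map]
    exact ⟨π.symm v, h.2 _, by simp⟩⟩

theorem Ham.map (π : Equiv.Perm V) {l : List V} (h : Ham l) : Ham (l.map π) := by
  refine ⟨h.1.map π.injective, fun v => ?_⟩
  rw [List.mem_map]
  exact ⟨π.symm v, h.2 _, by simp⟩

theorem mapPath_pathOf (π : Equiv.Perm V) {l : List V} (h : Ham l) :
    mapPath π (pathOf l h) = pathOf (l.map π) (h.map π) := by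
  apply Subtype.ext
  exact (edgesOf_map π l).symm

theorem mapPath_one (P : SpanningPath V) : mapPath 1 P = P := by
  apply Subtype.ext
  change P.1.image (Sym2.map (1 : Equiv.Perm V)) = P.1
  rw [Equiv.Perm.coe_one, Sym2.map_id, image_id]

theorem mapPath_mul (π σ : Equiv.Perm V) (P : SpanningPath V) :
    mapPath (π * σ) P = mapPath π (mapPath σ P) := by
  apply Subtype.ext
  change P.1.image (Sym2.map (π * σ : Equiv.Perm V)) = (P.1.image (Sym2.map σ)).image (Sym2.map π)
  rw [image_image, Equiv.Perm.coe_mul, Sym2.map_comp]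

variable (V) in
/-- The homomorphism `Sym(V) → Aut(pathGraph V)`: a permutation of the vertices acts on the
spanning paths. -/
def inducedAut : Equiv.Perm V →* (pathGraph V ≃g pathGraph V) where
  toFun π :=
    { toFun := mapPath π
      invFun := mapPath π⁻¹
      left_inv := fun P => by rw [← mapPath_mul, inv_mul_cancel, mapPath_one]
      right_inv := fun P => by rw [← mapPath_mul, mul_inv_cancel, mapPath_one]
      map_rel_iff' := by
        intro P Q
        have hinj : Function.Injective (Sym2.map π) := Sym2.map.injective π.injective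
        have h1 : mapPath π P = mapPath π Q ↔ P = Q := by
          constructor
          · intro h
            have := congrArg (mapPath π⁻¹) h
            rwa [← mapPath_mul, ← mapPath_mul, inv_mul_cancel, mapPath_one, mapPath_one] at this
          · rintro rfl; rfl
        have h2 : ((mapPath π P).1 ∩ (mapPath π Q).1).card = (P.1 ∩ Q.1).card := by
          change (P.1.image (Sym2.map π) ∩ Q.1.image (Sym2.map π)).card = _
          rw [← image_inter _ _ hinj, card_image_of_injective _ hinj]
        change (mapPath π P ≠ mapPath π Q ∧ ((mapPath π P).1 ∩ (mapPath π Q).1).card + 2 = _) ↔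
          (P ≠ Q ∧ (P.1 ∩ Q.1).card + 2 = _)
        rw [h2, Ne, h1] }
  map_one' := by
    ext P : 1
    exact mapPath_one P
  map_mul' := by
    intro π σ
    ext P : 1
    exact mapPath_mul π σ P

theorem exists_perm {l m : List V} (hl : Ham l) (hm : Ham m) :
    ∃ π : Equiv.Perm V, l.map π = m := by
  have hlen : l.length = m.length := by rw [hl.length, hm.length]
  let e1 : Fin l.length ≃ V := hl.1.getEquivOfForallMemList l hl.2
  let e2 : Fin m.length ≃ V := hm.1.getEquivOfForallMemList m hm.2
  refine ⟨e1.symm.trans ((finCongr hlen).trans e2), ?_⟩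
  apply List.ext_getElem
  · simpa using hlen
  · intro i h1 h2
    have h1' : i < l.length := by simpa using h1
    have : e1.symm l[i] = ⟨i, h1'⟩ := by
      rw [Equiv.symm_apply_eq]; rfl
    rw [List.getElem_map, Equiv.trans_apply, this]
    rfl

theorem surj (hV : 5 ≤ Fintype.card V) (φ : pathGraph V ≃g pathGraph V) :
    ∃ π : Equiv.Perm V, inducedAut V π = φ := by
  obtain ⟨l, hl⟩ : ∃ l : List V, Ham l :=
    ⟨Finset.univ.toList, Finset.nodup_toList _, fun v => by simp⟩
  obtain ⟨m, hm, hall⟩ := rot_all φ hV hl
  obtain ⟨π, hπ⟩ := exists_perm hl hm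
  refine ⟨π, ?_⟩
  have hfix : Fixes ((inducedAut V π)⁻¹ * φ) l := by
    refine ⟨hl, fun k => ?_⟩
    have e : φ (pathOf (l.rotate k) (hl.rotate k)) =
        inducedAut V π (pathOf (l.rotate k) (hl.rotate k)) := by
      rw [hall k]
      change _ = mapPath π _
      rw [mapPath_pathOf]
      apply pathOf_congr
      rw [← hπ, List.map_rotate]
    change (inducedAut V π).symm (φ _) = _
    rw [e, RelIso.symm_apply_apply]
  have hid : (inducedAut V π)⁻¹ * φ = 1 := by
    ext P : 1
    exact hfix.all hV P
  have := congrArg (fun x => inducedAut V π * x) hid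
  simpa using this.symm

theorem inj (hV : 3 ≤ Fintype.card V) : Function.Injective (inducedAut V) := by
  rw [injective_iff_map_eq_one]
  intro π h
  ext v
  change π v = v
  by_contra hne
  have hne' : v ≠ π v := fun h => hne h.symm
  set w := π v with hw
  let R : List V := ((Finset.univ.erase v).erase w).toList
  have hR : ∀ x, x ∈ R ↔ x ≠ w ∧ x ≠ v := by
    intro x; simp [R]
  have hl : Ham (v :: w :: R) := by
    constructor
    · rw [List.nodup_cons, List.nodup_cons, List.mem_cons, hR, hR]
      refine ⟨?_, ?_, Finset.nodup_toList _⟩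
      · tauto
      · tauto
    · intro x
      rw [List.mem_cons, List.mem_cons, hR]
      tauto
  have h1 : mapPath π (pathOf (v :: w :: R) hl) = pathOf (v :: w :: R) hl := by
    have : inducedAut V π (pathOf (v :: w :: R) hl) = pathOf (v :: w :: R) hl := by
      rw [h]; rfl
    exact this
  rw [mapPath_pathOf, pathOf_eq_iff] at h1
  have hRne : R ≠ [] := by
    intro h0
    have := hl.length
    rw [h0] at this
    simp at this
    omega
  rcases edgesOf_inj (hl.map π).1 hl.1 (fun x => ⟨fun _ => hl.2 x, fun _ => (hl.map π).2 x⟩) h1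
    with h2 | h2
  · rw [List.map_cons, List.cons.injEq] at h2
    exact hne h2.1
  · have h3 := congrArg List.head? h2
    rw [List.map_cons, List.head?_cons, List.head?_reverse, List.getLast?_eq_getLast_of_ne_nil (by simp),
      List.getLast_cons_cons, List.getLast_cons hRne] at h3
    have h4 : w = R.getLast hRne := Option.some.inj h3
    have h5 : R.getLast hRne ∈ R := List.getLast_mem hRne
    rw [← h4, hR] at h5
    exact h5.1 rfl

/-- **Automorphisms of the path graph of the complete graph.** For `|V| ≥ 5` every automorphism of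
the path graph of the complete graph on `V` is induced by exactly one permutation of `V`, so that
its automorphism group is isomorphic to the symmetric group of `V`. -/
theorem result (V : Type*) [DecidableEq V] [Fintype V] (hV : 5 ≤ Fintype.card V) :
    Function.Bijective (inducedAut V) ∧
      Nonempty ((pathGraph V ≃g pathGraph V) ≃* Equiv.Perm V) := by
  have hb : Function.Bijective (inducedAut V) := ⟨inj (by omega), surj hV⟩
  exact ⟨hb, ⟨(MulEquiv.ofBijective (inducedAut V) hb).symm⟩⟩

end Part5

end Pool.Agent.Results.MP_89fae5_co.PathGraphAut
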